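import Mathlib

/-!
Subset sums of `p ^ a * q ^ b` in exponent space: finite sets `B` of pairs `(a, b)`.
-/

set_option autoImplicit false

namespace Pool.Agent.Helper2Dil

open Finset

/-- The value `p ^ a * q ^ b` of an exponent pair. -/
def val (p q : ℕ) (x : ℕ × ℕ) : ℕ := p ^ x.1 * q ^ x.2

/-- The sum of the values of a finite set of exponent pairs. -/
def sm (p q : ℕ) (B : Finset (ℕ × ℕ)) : ℕ := ∑ x ∈ B, val p q x

open scoped Classical in
/-- The finite sets of exponent pairs inside `X` with sum `n` (a box big enough). -/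
noncomputable def reps (p q : ℕ) (X : Set (ℕ × ℕ)) (n : ℕ) : Finset (Finset (ℕ × ℕ)) :=
  ((range (n + 1)) ×ˢ (range (n + 1))).powerset.filter
    (fun B => (∀ x ∈ B, x ∈ X) ∧ sm p q B = n)

lemma val_pos {p q : ℕ} (hp : 2 ≤ p) (hq : 2 ≤ q) (x : ℕ × ℕ) : 0 < val p q x := by
  unfold val; positivity

lemma fst_lt_val {p q : ℕ} (hp : 2 ≤ p) (hq : 2 ≤ q) (x : ℕ × ℕ) : x.1 < val p q x := by
  unfold val
  calc x.1 < p ^ x.1 := Nat.lt_pow_self (by omega)
    _ ≤ p ^ x.1 * q ^ x.2 := Nat.le_mul_of_pos_right _ (by positivity)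

lemma snd_lt_val {p q : ℕ} (hp : 2 ≤ p) (hq : 2 ≤ q) (x : ℕ × ℕ) : x.2 < val p q x := by
  unfold val
  calc x.2 < q ^ x.2 := Nat.lt_pow_self (by omega)
    _ ≤ p ^ x.1 * q ^ x.2 := Nat.le_mul_of_pos_left _ (by positivity)

lemma val_le_sm {p q : ℕ} {B : Finset (ℕ × ℕ)} {x : ℕ × ℕ} (hx : x ∈ B) :
    val p q x ≤ sm p q B :=
  Finset.single_le_sum (f := val p q) (fun _ _ => Nat.zero_le _) hx

lemma mem_reps {p q : ℕ} (hp : 2 ≤ p) (hq : 2 ≤ q) {X : Set (ℕ × ℕ)} {n : ℕ}
    {B : Finset (ℕ × ℕ)} :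
    B ∈ reps p q X n ↔ (∀ x ∈ B, x ∈ X) ∧ sm p q B = n := by
  classical
  unfold reps
  rw [mem_filter, mem_powerset]
  constructor
  · rintro ⟨_, h⟩; exact h
  · rintro ⟨h1, h2⟩
    refine ⟨?_, h1, h2⟩
    intro x hx
    have h3 := val_le_sm (p := p) (q := q) hx
    have h4 := fst_lt_val hp hq x
    have h5 := snd_lt_val hp hq x
    rw [mem_product, mem_range, mem_range]
    omega

/-- Number of representations. -/
noncomputable def cnt (p q : ℕ) (X : Set (ℕ × ℕ)) (n : ℕ) : ℕ := (reps p q X n).card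

section shift

variable (p q : ℕ) (s : ℕ × ℕ)

/-- Elements not above `s`. -/
def low (B : Finset (ℕ × ℕ)) : Finset (ℕ × ℕ) := B.filter (fun x => ¬ s ≤ x)

/-- Elements above `s`, shifted down by `s`. -/
def high (B : Finset (ℕ × ℕ)) : Finset (ℕ × ℕ) := (B.filter (fun x => s ≤ x)).image (fun x => x - s)

/-- Union of a low part with a shifted-up part. -/
def glue (B₁ B₂ : Finset (ℕ × ℕ)) : Finset (ℕ × ℕ) := B₁ ∪ B₂.image (fun x => x + s)

lemma val_add (x : ℕ × ℕ) : val p q (x + s) = val p q s * val p q x := by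
  unfold val; simp only [Prod.fst_add, Prod.snd_add, pow_add]; ring

lemma sub_add_cancel' {x : ℕ × ℕ} (h : s ≤ x) : x - s + s = x := by
  ext
  · exact Nat.sub_add_cancel h.1
  · exact Nat.sub_add_cancel h.2

lemma add_sub_cancel'' (x : ℕ × ℕ) : x + s - s = x := by
  ext
  · show x.1 + s.1 - s.1 = x.1
    omega
  · show x.2 + s.2 - s.2 = x.2
    omega

lemma le_add_self' (x : ℕ × ℕ) : s ≤ x + s := ⟨Nat.le_add_left _ _, Nat.le_add_left _ _⟩

lemma mem_low {B : Finset (ℕ × ℕ)} {x : ℕ × ℕ} : x ∈ low s B ↔ x ∈ B ∧ ¬ s ≤ x := by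
  unfold low; rw [mem_filter]

lemma mem_high {B : Finset (ℕ × ℕ)} {x : ℕ × ℕ} : x ∈ high s B ↔ x + s ∈ B := by
  unfold high
  rw [mem_image]
  constructor
  · rintro ⟨y, hy, rfl⟩
    rw [mem_filter] at hy
    rw [sub_add_cancel' s hy.2]; exact hy.1
  · intro h
    exact ⟨x + s, by rw [mem_filter]; exact ⟨h, le_add_self' s x⟩, add_sub_cancel'' s x⟩

lemma mem_glue {B₁ B₂ : Finset (ℕ × ℕ)} {x : ℕ × ℕ} :
    x ∈ glue s B₁ B₂ ↔ x ∈ B₁ ∨ ∃ y ∈ B₂, y + s = x := by
  unfold glue; rw [mem_union, mem_image]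

lemma glue_low_high (B : Finset (ℕ × ℕ)) : glue s (low s B) (high s B) = B := by
  ext x
  rw [mem_glue, mem_low]
  constructor
  · rintro (h | ⟨y, hy, rfl⟩)
    · exact h.1
    · exact (mem_high s).1 hy
  · intro h
    by_cases hs : s ≤ x
    · right
      exact ⟨x - s, (mem_high s).2 (by rw [sub_add_cancel' s hs]; exact h), sub_add_cancel' s hs⟩
    · left; exact ⟨h, hs⟩

lemma low_glue {B₁ B₂ : Finset (ℕ × ℕ)} (h : ∀ x ∈ B₁, ¬ s ≤ x) : low s (glue s B₁ B₂) = B₁ := by
  ext x
  rw [mem_low, mem_glue]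
  constructor
  · rintro ⟨h1 | ⟨y, hy, rfl⟩, h2⟩
    · exact h1
    · exact absurd (le_add_self' s y) h2
  · intro hx; exact ⟨Or.inl hx, h x hx⟩

lemma high_glue {B₁ B₂ : Finset (ℕ × ℕ)} (h : ∀ x ∈ B₁, ¬ s ≤ x) :
    high s (glue s B₁ B₂) = B₂ := by
  ext x
  rw [mem_high, mem_glue]
  constructor
  · rintro (h1 | ⟨y, hy, h2⟩)
    · exact absurd (le_add_self' s x) (h _ h1)
    · rw [← add_right_cancel h2]; exact hy
  · intro hx; exact Or.inr ⟨x, hx, rfl⟩

lemma sm_glue {B₁ B₂ : Finset (ℕ × ℕ)} (h : ∀ x ∈ B₁, ¬ s ≤ x) :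
    sm p q (glue s B₁ B₂) = sm p q B₁ + val p q s * sm p q B₂ := by
  unfold sm glue
  rw [sum_union, sum_image, mul_sum]
  · congr 1
    refine sum_congr rfl (fun x _ => val_add p q s x)
  · intro x _ y _ hxy; exact add_right_cancel hxy
  · rw [Finset.disjoint_left]
    intro x hx hx'
    rw [mem_image] at hx'
    obtain ⟨y, _, rfl⟩ := hx'
    exact h _ hx (le_add_self' s y)

lemma low_not_le (B : Finset (ℕ × ℕ)) : ∀ x ∈ low s B, ¬ s ≤ x := fun _ hx => ((mem_low s).1 hx).2

lemma sm_low_high (B : Finset (ℕ × ℕ)) :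
    sm p q B = sm p q (low s B) + val p q s * sm p q (high s B) := by
  conv_lhs => rw [← glue_low_high s B]
  exact sm_glue p q s (low_not_le s B)

end shift

/-- Pairs with first exponent `< u`. -/
def strip (u : ℕ) : Set (ℕ × ℕ) := {x | x.1 < u}

lemma cnt_mono {p q : ℕ} (hp : 2 ≤ p) (hq : 2 ≤ q) {X Y : Set (ℕ × ℕ)} (h : X ⊆ Y) (n : ℕ) :
    cnt p q X n ≤ cnt p q Y n := by
  unfold cnt
  refine card_le_card ?_
  intro B hB
  rw [mem_reps hp hq] at hB ⊢
  exact ⟨fun x hx => h (hB.1 x hx), hB.2⟩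

/-- The base: finite set of digits `(a, 0)`, `a < u`. -/
def row (u : ℕ) : Finset (ℕ × ℕ) := (range u) ×ˢ ({0} : Finset ℕ)

lemma mem_row {u : ℕ} {x : ℕ × ℕ} : x ∈ row u ↔ x.1 < u ∧ x.2 = 0 := by
  unfold row; rw [mem_product, mem_range, mem_singleton]

/-- Subsets of the row with prescribed residue modulo `q`. -/
def res (p q u r : ℕ) : Finset (Finset (ℕ × ℕ)) :=
  (row u).powerset.filter (fun C => sm p q C ≡ r [MOD q])

lemma mem_res {p q u r : ℕ} {C : Finset (ℕ × ℕ)} :
    C ∈ res p q u r ↔ C ⊆ row u ∧ sm p q C ≡ r [MOD q] := by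
  unfold res; rw [mem_filter, mem_powerset]

lemma not_zero_one_le {x : ℕ × ℕ} : ¬ ((0, 1) : ℕ × ℕ) ≤ x ↔ x.2 = 0 := by
  rw [Prod.le_def]; simp

lemma val_zero_one (p q : ℕ) : val p q (0, 1) = q := by simp [val]

lemma low_mem_row {p q u n : ℕ} (hp : 2 ≤ p) (hq : 2 ≤ q) {B : Finset (ℕ × ℕ)}
    (hB : B ∈ reps p q (strip u) n) : low (0, 1) B ∈ res p q u n := by
  rw [mem_reps hp hq] at hB
  rw [mem_res]
  constructor
  · intro x hx
    rw [mem_low, not_zero_one_le] at hx
    rw [mem_row]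
    exact ⟨hB.1 x hx.1, hx.2⟩
  · have h := sm_low_high p q (0, 1) B
    rw [hB.2, val_zero_one] at h
    rw [h]
    exact (Nat.modEq_iff_dvd' (by omega)).2 ⟨sm p q (high (0, 1) B), by omega⟩

/-- Upper digit recursion. -/
lemma cnt_strip_le {p q u A : ℕ} (hp : 2 ≤ p) (hq : 2 ≤ q)
    (hA : ∀ r, (res p q u r).card ≤ A) (j : ℕ) :
    ∀ y, y < q ^ j → cnt p q (strip u) y ≤ A ^ j := by
  induction j with
  | zero =>
    intro y hy
    have hy0 : y = 0 := by simpa using hy
    subst hy0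
    rw [pow_zero]
    unfold cnt
    rw [card_le_one]
    have key : ∀ B ∈ reps p q (strip u) 0, B = ∅ := by
      intro B hB
      rw [mem_reps hp hq] at hB
      by_contra hne
      obtain ⟨x, hx⟩ := Finset.nonempty_iff_ne_empty.2 hne
      have h1 := val_le_sm (p := p) (q := q) hx
      have h2 := val_pos hp hq x
      omega
    intro a ha b hb
    rw [key a ha, key b hb]
  | succ j ih =>
    intro y hy
    unfold cnt
    have h1 : (reps p q (strip u) y).card ≤ A ^ j * (res p q u y).card := by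
      refine card_le_mul_card_image_of_maps_to (f := low (0, 1))
        (fun B hB => low_mem_row hp hq hB) _ ?_
      intro C hC
      rw [mem_res] at hC
      set z := (y - sm p q C) / q with hz
      have hzlt : z < q ^ j := by
        rw [hz]
        have : y - sm p q C < q * q ^ j := by rw [pow_succ'] at hy; omega
        exact Nat.div_lt_of_lt_mul this
      refine le_trans ?_ (ih z hzlt)
      unfold cnt
      refine card_le_card_of_injOn (high (0, 1)) ?_ ?_
      · intro B hB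
        rw [Finset.mem_coe, mem_filter, mem_reps hp hq] at hB
        obtain ⟨⟨hB1, hB2⟩, hB3⟩ := hB
        rw [Finset.mem_coe, mem_reps hp hq]
        constructor
        · intro x hx
          have := hB1 _ ((mem_high (0, 1)).1 hx)
          exact this
        · have h := sm_low_high p q (0, 1) B
          rw [hB3, hB2, val_zero_one] at h
          rw [hz, h, Nat.add_sub_cancel_left, Nat.mul_div_cancel_left _ (by omega)]
      · intro B hB B' hB' hBB'
        rw [Finset.mem_coe, mem_filter] at hB hB'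
        rw [← glue_low_high (0, 1) B, ← glue_low_high (0, 1) B', hB.2, hB'.2, hBB']
    calc (reps p q (strip u) y).card ≤ A ^ j * (res p q u y).card := h1
      _ ≤ A ^ j * A := Nat.mul_le_mul_left _ (hA y)
      _ = A ^ (j + 1) := (pow_succ _ _).symm

/-- Lower digit recursion. -/
lemma le_cnt_strip {p q u a n₀ : ℕ} (hp : 2 ≤ p) (hq : 2 ≤ q)
    (ha : ∀ r, a ≤ (res p q u r).card) (hbase : ∀ m, n₀ ≤ m → 1 ≤ cnt p q (strip u) m) (j : ℕ) :
    ∀ m, q ^ j * (n₀ + sm p q (row u)) ≤ m + sm p q (row u) → a ^ j ≤ cnt p q (strip u) m := by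
  induction j with
  | zero =>
    intro m hm
    rw [pow_zero]
    exact hbase m (by rw [pow_zero] at hm; omega)
  | succ j ih =>
    intro m hm
    set D := sm p q (row u) with hD
    have hDm : D ≤ m := by
      have h1 : D ≤ n₀ + D := by omega
      have h2 : 2 * D ≤ q ^ (j + 1) * (n₀ + D) :=
        Nat.mul_le_mul (by
          calc 2 ≤ q := hq
            _ = q ^ 1 := (pow_one q).symm
            _ ≤ q ^ (j + 1) := Nat.pow_le_pow_right (by omega) (by omega)) h1
      omega
    unfold cnt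
    have h1 : a ^ j * (res p q u m).card ≤ (reps p q (strip u) m).card := by
      refine mul_card_image_le_card_of_maps_to (f := low (0, 1))
        (fun B hB => low_mem_row hp hq hB) _ ?_
      intro C hC
      rw [mem_res] at hC
      have hCD : sm p q C ≤ D := by
        rw [hD]; exact Finset.sum_le_sum_of_subset hC.1
      have hCm : sm p q C ≤ m := le_trans hCD hDm
      obtain ⟨z, hz⟩ := (Nat.modEq_iff_dvd' hCm).1 hC.2
      have hzge : q ^ j * (n₀ + D) ≤ z + D := by
        have h2 : q * (q ^ j * (n₀ + D)) ≤ q * (z + D) := by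
          calc q * (q ^ j * (n₀ + D)) = q ^ (j + 1) * (n₀ + D) := by rw [pow_succ]; ring
            _ ≤ m + D := hm
            _ = q * z + sm p q C + D := by omega
            _ ≤ q * z + 2 * D := by omega
            _ ≤ q * z + q * D := by
                have := Nat.mul_le_mul_right D hq
                omega
            _ = q * (z + D) := by ring
        exact Nat.le_of_mul_le_mul_left h2 (by omega)
      refine le_trans (ih z hzge) ?_
      unfold cnt
      have hClow : ∀ x ∈ C, ¬ ((0, 1) : ℕ × ℕ) ≤ x := by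
        intro x hx
        rw [not_zero_one_le]
        exact (mem_row.1 (hC.1 hx)).2
      refine card_le_card_of_injOn (fun B => glue (0, 1) C B) ?_ ?_
      · intro B hB
        rw [Finset.mem_coe, mem_reps hp hq] at hB
        rw [Finset.mem_coe, mem_filter, mem_reps hp hq]
        refine ⟨⟨?_, ?_⟩, low_glue _ hClow⟩
        · intro x hx
          rw [mem_glue] at hx
          rcases hx with hx | ⟨y, hy, rfl⟩
          · exact (mem_row.1 (hC.1 hx)).1
          · have := hB.1 y hy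
            simpa [strip] using this
        · rw [sm_glue p q (0, 1) hClow, hB.2, val_zero_one]; omega
      · intro B _ B' _ hBB'
        have := congrArg (high (0, 1)) hBB'
        simpa only [high_glue _ hClow] using this
    calc a ^ (j + 1) = a ^ j * a := pow_succ _ _
      _ ≤ a ^ j * (res p q u m).card := Nat.mul_le_mul_left _ (ha m)
      _ ≤ (reps p q (strip u) m).card := h1

/-- Number of finite sets of exponent pairs with sum at most `x`. -/
def tot (p q x : ℕ) : Finset (Finset (ℕ × ℕ)) :=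
  ((range (x + 1)) ×ˢ (range (x + 1))).powerset.filter (fun B => sm p q B ≤ x)

lemma mem_tot {p q : ℕ} (hp : 2 ≤ p) (hq : 2 ≤ q) {x : ℕ} {B : Finset (ℕ × ℕ)} :
    B ∈ tot p q x ↔ sm p q B ≤ x := by
  classical
  unfold tot
  rw [mem_filter, mem_powerset]
  constructor
  · rintro ⟨_, h⟩; exact h
  · intro h2
    refine ⟨?_, h2⟩
    intro y hy
    have h3 := val_le_sm (p := p) (q := q) hy
    have h4 := fst_lt_val hp hq y
    have h5 := snd_lt_val hp hq y
    rw [mem_product, mem_range, mem_range]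
    omega

lemma not_shift_le {u : ℕ} {x : ℕ × ℕ} : ¬ ((u, 0) : ℕ × ℕ) ≤ x ↔ x.1 < u := by
  rw [Prod.le_def]; simp

lemma val_shift (p q u : ℕ) : val p q (u, 0) = p ^ u := by simp [val]

/-- Main upper decomposition. -/
lemma cnt_univ_le {p q u Λ N x : ℕ} (hp : 2 ≤ p) (hq : 2 ≤ q)
    (hΛ : ∀ y, y ≤ N → cnt p q (strip u) y ≤ Λ) (hx : N < p ^ u * (x + 1)) :
    cnt p q Set.univ N ≤ Λ * (tot p q x).card := by
  unfold cnt
  refine card_le_mul_card_image_of_maps_to (f := high (u, 0)) ?_ _ ?_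
  · intro B hB
    rw [mem_reps hp hq] at hB
    rw [mem_tot hp hq]
    have h := sm_low_high p q (u, 0) B
    rw [hB.2, val_shift] at h
    have h2 : p ^ u * sm p q (high (u, 0) B) < p ^ u * (x + 1) := by omega
    have h3 := Nat.lt_of_mul_lt_mul_left h2
    omega
  · intro C _
    refine le_trans ?_ (hΛ (N - p ^ u * sm p q C) (by omega))
    unfold cnt
    refine card_le_card_of_injOn (low (u, 0)) ?_ ?_
    · intro B hB
      rw [Finset.mem_coe, mem_filter, mem_reps hp hq] at hB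
      obtain ⟨⟨_, hB2⟩, hB3⟩ := hB
      rw [Finset.mem_coe, mem_reps hp hq]
      constructor
      · intro y hy
        exact not_shift_le.1 (low_not_le _ _ y hy)
      · have h := sm_low_high p q (u, 0) B
        rw [hB3, hB2, val_shift] at h
        omega
    · intro B hB B' hB' hBB'
      rw [Finset.mem_coe, mem_filter] at hB hB'
      rw [← glue_low_high (u, 0) B, ← glue_low_high (u, 0) B', hB.2, hB'.2, hBB']

/-- Main lower decomposition. -/
lemma le_cnt_univ {p q k lam n x : ℕ} (hp : 2 ≤ p) (hq : 2 ≤ q)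
    (hlam : ∀ c, c ≤ x → p ^ k * c ≤ n ∧ lam ≤ cnt p q (strip k) (n - p ^ k * c)) :
    lam * (tot p q x).card ≤ cnt p q Set.univ n := by
  unfold cnt
  have hmap : ∀ B ∈ (reps p q Set.univ n).filter (fun B => high (k, 0) B ∈ tot p q x),
      high (k, 0) B ∈ tot p q x := fun B hB => (mem_filter.1 hB).2
  refine le_trans ?_ (card_le_card (filter_subset (fun B => high (k, 0) B ∈ tot p q x) _))
  refine mul_card_image_le_card_of_maps_to (f := high (k, 0)) hmap _ ?_
  intro C hC
  have hCx := (mem_tot hp hq).1 hC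
  obtain ⟨h1, h2⟩ := hlam _ hCx
  refine le_trans h2 ?_
  unfold cnt
  refine card_le_card_of_injOn (fun B => glue (k, 0) B C) ?_ ?_
  · intro B hB
    rw [Finset.mem_coe, mem_reps hp hq] at hB
    have hBlow : ∀ y ∈ B, ¬ ((k, 0) : ℕ × ℕ) ≤ y := fun y hy => not_shift_le.2 (hB.1 y hy)
    rw [Finset.mem_coe, mem_filter, mem_filter, mem_reps hp hq, high_glue _ hBlow]
    refine ⟨⟨⟨fun _ _ => Set.mem_univ _, ?_⟩, hC⟩, rfl⟩
    rw [sm_glue p q (k, 0) hBlow, hB.2, val_shift]; omega
  · intro B hB B' hB' hBB'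
    rw [Finset.mem_coe, mem_reps hp hq] at hB hB'
    have hBlow : ∀ y ∈ B, ¬ ((k, 0) : ℕ × ℕ) ≤ y := fun y hy => not_shift_le.2 (hB.1 y hy)
    have hBlow' : ∀ y ∈ B', ¬ ((k, 0) : ℕ × ℕ) ≤ y := fun y hy => not_shift_le.2 (hB'.1 y hy)
    have := congrArg (low (k, 0)) hBB'
    simpa only [low_glue _ hBlow, low_glue _ hBlow'] using this

end Pool.Agent.Helper2Dil
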