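import Pool.Agent.Helper2_Dil.Equi

/-!
An elementary proof of the Birch theorem (with Davenport's remark): for coprime `p, q ≥ 2` there is
`k` such that every large integer is a sum of distinct `p ^ a * q ^ b` with `a < k`.
-/

set_option autoImplicit false

namespace Pool.Agent.Helper2Dil

open Finset

lemma exists_res {p q : ℕ} (hq : 2 ≤ q) (hpq : Nat.Coprime p q) :
    ∃ u : ℕ, ∀ r : ℕ, ∃ C, C ∈ res p q u r := by
  obtain ⟨u₀, hu₀⟩ := equidistribution hq hpq (show (0 : ℝ) < 1 / 2 by norm_num)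
  refine ⟨u₀, fun r => ?_⟩
  have h := (hu₀ u₀ le_rfl r).1
  have hq0 : (0 : ℝ) < q := by exact_mod_cast (by omega : 0 < q)
  have h2 : (0 : ℝ) < (res p q u₀ r).card := lt_of_lt_of_le (by positivity) h
  have h3 : 0 < (res p q u₀ r).card := by exact_mod_cast h2
  exact Finset.card_pos.1 h3

/-- Sums of elements of the strip cover all residues modulo `q ^ J`, with a good bound. -/
lemma exists_strip_residue {p q u : ℕ} (hq : 2 ≤ q)
    (hu : ∀ r : ℕ, ∃ C, C ∈ res p q u r) (J : ℕ) :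
    ∀ w : ℕ, ∃ B : Finset (ℕ × ℕ), sm p q B ≡ w [MOD q ^ J] ∧
      sm p q B + sm p q (row u) ≤ sm p q (row u) * q ^ J := by
  induction J with
  | zero =>
    intro w
    refine ⟨∅, ?_, ?_⟩
    · rw [pow_zero]; exact Nat.modEq_one
    · rw [pow_zero, mul_one]; simp [sm]
  | succ J ih =>
    intro w
    obtain ⟨C, hC⟩ := hu w
    rw [mem_res] at hC
    set D := sm p q (row u) with hD
    have hCD : sm p q C ≤ D := by
      rw [hD]; exact Finset.sum_le_sum_of_subset hC.1
    have h1 : sm p q C ≤ w + sm p q C * q ^ (J + 1) := by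
      have : sm p q C * 1 ≤ sm p q C * q ^ (J + 1) :=
        Nat.mul_le_mul_left _ (Nat.one_le_pow _ _ (by omega))
      omega
    have h2 : sm p q C ≡ w + sm p q C * q ^ (J + 1) [MOD q] := by
      have h3 : sm p q C * q ^ (J + 1) ≡ 0 [MOD q] := by
        rw [Nat.modEq_zero_iff_dvd, pow_succ]
        exact Dvd.intro_left (sm p q C * q ^ J) (by ring)
      have h4 := hC.2.add h3.symm
      simpa using h4
    obtain ⟨z, hz⟩ := (Nat.modEq_iff_dvd' h1).1 h2
    obtain ⟨B, hB1, hB2⟩ := ih z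
    have hClow : ∀ x ∈ C, ¬ ((0, 1) : ℕ × ℕ) ≤ x := by
      intro x hx
      rw [not_zero_one_le]
      exact (mem_row.1 (hC.1 hx)).2
    refine ⟨glue (0, 1) C B, ?_, ?_⟩
    · rw [sm_glue p q (0, 1) hClow, val_zero_one]
      have h3 : q * sm p q B ≡ q * z [MOD q ^ (J + 1)] := by
        rw [pow_succ']
        exact hB1.mul_left' q
      have h4 : sm p q C + q * sm p q B ≡ sm p q C + q * z [MOD q ^ (J + 1)] := h3.add_left _
      have h5 : sm p q C + q * z = w + sm p q C * q ^ (J + 1) := by omega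
      rw [h5] at h4
      refine h4.trans ?_
      have h6 : w + sm p q C * q ^ (J + 1) ≡ w + 0 [MOD q ^ (J + 1)] :=
        Nat.ModEq.add_left _ (by rw [Nat.modEq_zero_iff_dvd]; exact Dvd.intro_left _ rfl)
      simpa using h6
    · rw [sm_glue p q (0, 1) hClow, val_zero_one]
      have h3 : q * (sm p q B + D) ≤ q * (D * q ^ J) := Nat.mul_le_mul_left _ hB2
      have h4 : 2 * D ≤ q * D := Nat.mul_le_mul_right _ hq
      have h5 : D * q ^ (J + 1) = q * (D * q ^ J) := by rw [pow_succ]; ring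
      rw [h5]
      rw [mul_add] at h3
      omega

/-- Pure powers of `q`, all large, cover all residues modulo `m` coprime to `q`. -/
lemma exists_pure_residue {p q m : ℕ} (hq : 2 ≤ q) (hm : 0 < m) (hqm : Nat.Coprime q m) (T : ℕ)
    (ρ : ℕ) : ∃ A : Finset (ℕ × ℕ), (∀ x ∈ A, x.1 = 0 ∧ T < val p q x) ∧
      sm p q A ≡ ρ [MOD m] := by
  classical
  have hφ : 0 < Nat.totient m := Nat.totient_pos.2 hm
  refine ⟨(range ρ).image (fun i => (0, Nat.totient m * (T + 1 + i))), ?_, ?_⟩
  · intro x hx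
    rw [mem_image] at hx
    obtain ⟨i, _, rfl⟩ := hx
    refine ⟨rfl, ?_⟩
    unfold val
    simp only [pow_zero, one_mul]
    have h1 : T + 1 + i ≤ Nat.totient m * (T + 1 + i) := Nat.le_mul_of_pos_left _ hφ
    calc T < Nat.totient m * (T + 1 + i) := by omega
      _ < q ^ (Nat.totient m * (T + 1 + i)) := Nat.lt_pow_self (by omega)
  · unfold sm
    rw [sum_image]
    · have h1 : ∀ i ∈ range ρ, val p q (0, Nat.totient m * (T + 1 + i)) ≡ 1 [MOD m] := by
        intro i _
        unfold val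
        simp only [pow_zero, one_mul]
        rw [pow_mul]
        simpa using (Nat.ModEq.pow_totient hqm).pow (T + 1 + i)
      have h2 : ∑ i ∈ range ρ, val p q (0, Nat.totient m * (T + 1 + i)) ≡ ∑ _i ∈ range ρ, 1 [MOD m] := by
        clear hqm
        induction ρ with
        | zero => rfl
        | succ n ih =>
          rw [sum_range_succ, sum_range_succ]
          exact (ih (fun i hi => h1 i (mem_range.2 (by have := mem_range.1 hi; omega)))).add
            (h1 n (mem_range.2 (by omega)))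
      simpa using h2
    · intro i _ j _ hij
      have h1 : Nat.totient m * (T + 1 + i) = Nat.totient m * (T + 1 + j) := congrArg Prod.snd hij
      have := Nat.eq_of_mul_eq_mul_left hφ h1
      omega

/-- Step 1: arbitrarily far out there are two sums with a bounded positive difference. -/
lemma exists_small_diff {p q : ℕ} (hp : 2 ≤ p) (hq : 2 ≤ q) (hpq : Nat.Coprime p q) :
    ∃ Δ : ℕ, ∀ T : ℕ, ∃ δ, 1 ≤ δ ∧ δ ≤ Δ ∧ ∃ U V : Finset (ℕ × ℕ),
      (∀ x ∈ U, T < val p q x) ∧ (∀ x ∈ V, T < val p q x) ∧ sm p q U = sm p q V + δ := by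
  classical
  obtain ⟨u, hu⟩ := exists_res hq hpq
  set D := sm p q (row u) with hD
  refine ⟨D + 1, fun T => ?_⟩
  set m := p ^ (T + 1) with hm
  have hmpos : 0 < m := by rw [hm]; positivity
  have hTm : T < m := by
    rw [hm]
    calc T < T + 1 := by omega
      _ < p ^ (T + 1) := Nat.lt_pow_self (by omega)
  have hqm : Nat.Coprime q m := by rw [hm]; exact Nat.Coprime.pow_right _ hpq.symm
  choose A hA1 hA2 using fun ρ => exists_pure_residue (p := p) hq hmpos hqm T ρ
  set S₁ := ∑ ρ ∈ range m, sm p q (A ρ) with hS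
  set J := S₁ + D + 3 with hJ
  have hQ : S₁ + D + 3 ≤ q ^ J := by
    rw [hJ]; exact (Nat.lt_pow_self (by omega)).le
  set Q := q ^ J with hQdef
  choose B hB1 hB2 using exists_strip_residue hq hu J
  let F : ℕ × ℕ → Finset (ℕ × ℕ) := fun y => glue (T + 1, 0) (A y.1) (B y.2)
  have hAlow : ∀ ρ, ∀ x ∈ A ρ, ¬ ((T + 1, 0) : ℕ × ℕ) ≤ x := by
    intro ρ x hx
    rw [not_shift_le, (hA1 ρ x hx).1]; omega
  have hF : ∀ y, sm p q (F y) = sm p q (A y.1) + m * sm p q (B y.2) := by
    intro y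
    simp only [F]
    rw [sm_glue p q _ (hAlow _), val_shift]
  have hFT : ∀ y, ∀ x ∈ F y, T < val p q x := by
    intro y x hx
    simp only [F] at hx
    rw [mem_glue] at hx
    rcases hx with hx | ⟨z, _, rfl⟩
    · exact (hA1 _ x hx).2
    · rw [val_add, val_shift, ← hm]
      exact lt_of_lt_of_le hTm (Nat.le_mul_of_pos_right _ (val_pos hp hq z))
  have hinj : ∀ y ∈ range m ×ˢ range Q, ∀ y' ∈ range m ×ˢ range Q,
      sm p q (F y) = sm p q (F y') → y = y' := by
    intro y hy y' hy' h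
    rw [mem_product, mem_range, mem_range] at hy hy'
    rw [hF, hF] at h
    have h1 : y.1 ≡ y'.1 [MOD m] := by
      have e1 : sm p q (A y.1) + m * sm p q (B y.2) ≡ y.1 [MOD m] := by
        have := (hA2 y.1).add (show m * sm p q (B y.2) ≡ 0 [MOD m] from
          (Nat.modEq_zero_iff_dvd).2 (Dvd.intro _ rfl))
        simpa using this
      have e2 : sm p q (A y'.1) + m * sm p q (B y'.2) ≡ y'.1 [MOD m] := by
        have := (hA2 y'.1).add (show m * sm p q (B y'.2) ≡ 0 [MOD m] from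
          (Nat.modEq_zero_iff_dvd).2 (Dvd.intro _ rfl))
        simpa using this
      exact (e1.symm.trans (by rw [h])).trans e2
    have h2 : y.1 = y'.1 := Nat.ModEq.eq_of_lt_of_lt h1 hy.1 hy'.1
    rw [h2] at h
    have h3 : sm p q (B y.2) = sm p q (B y'.2) :=
      Nat.eq_of_mul_eq_mul_left hmpos (Nat.add_left_cancel h)
    have h4 : y.2 ≡ y'.2 [MOD Q] := ((hB1 y.2).symm.trans (by rw [h3])).trans (hB1 y'.2)
    have h5 : y.2 = y'.2 := Nat.ModEq.eq_of_lt_of_lt h4 hy.2 hy'.2
    exact Prod.ext h2 h5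
  have hmQ : 1 ≤ m * Q := Nat.mul_pos hmpos (by omega)
  have hmaps : ∀ y ∈ range m ×ˢ range Q, sm p q (F y) / (D + 2) ∈ range (m * Q - 1) := by
    intro y hy
    rw [mem_product, mem_range, mem_range] at hy
    rw [mem_range, Nat.div_lt_iff_lt_mul (by omega), hF]
    have h1 : sm p q (A y.1) ≤ S₁ :=
      Finset.single_le_sum (f := fun ρ => sm p q (A ρ)) (fun _ _ => Nat.zero_le _)
        (mem_range.2 hy.1)
    have h2 : m * sm p q (B y.2) ≤ m * (D * Q) :=
      Nat.mul_le_mul_left _ (le_trans (Nat.le_add_right _ _) (hB2 y.2))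
    have h3 : (m * Q - 1) * (D + 2) = m * (D * Q) + 2 * (m * Q) - (D + 2) := by
      rw [Nat.sub_mul, one_mul]; congr 1; ring
    have h4 : Q ≤ m * Q := Nat.le_mul_of_pos_left _ hmpos
    rw [h3]
    omega
  have hcard : (range (m * Q - 1)).card < (range m ×ˢ range Q).card := by
    rw [card_range, card_product, card_range, card_range]; omega
  obtain ⟨y, hy, y', hy', hne, heq⟩ :=
    Finset.exists_ne_map_eq_of_card_lt_of_maps_to hcard hmaps
  have hne' : sm p q (F y) ≠ sm p q (F y') := fun h => hne (hinj y hy y' hy' h)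
  have key : ∀ a b : ℕ, a / (D + 2) = b / (D + 2) → a < b → b - a ≤ D + 1 := by
    intro a b hab hlt
    have e1 := Nat.div_add_mod a (D + 2)
    have e2 := Nat.div_add_mod b (D + 2)
    have e3 := Nat.mod_lt b (show 0 < D + 2 by omega)
    rw [hab] at e1
    omega
  rcases lt_or_gt_of_ne hne' with hlt | hlt
  · refine ⟨sm p q (F y') - sm p q (F y), by omega, key _ _ heq hlt, F y', F y, hFT _, hFT _, by omega⟩
  · refine ⟨sm p q (F y) - sm p q (F y'), by omega, key _ _ heq.symm hlt, F y, F y', hFT _, hFT _, by omega⟩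

/-- Step 2: a fixed positive difference occurs arbitrarily far out, with first exponent `> c`. -/
lemma exists_fixed_diff {p q : ℕ} (hp : 2 ≤ p) (hq : 2 ≤ q) (hpq : Nat.Coprime p q) (c : ℕ) :
    ∃ δ, 1 ≤ δ ∧ ∀ T : ℕ, ∃ U V : Finset (ℕ × ℕ),
      (∀ x ∈ U, c < x.1 ∧ T < val p q x) ∧ (∀ x ∈ V, c < x.1 ∧ T < val p q x) ∧
      sm p q U = sm p q V + δ := by
  classical
  obtain ⟨Δ, hΔ⟩ := exists_small_diff hp hq hpq
  -- first find a fixed difference without the constraint on exponents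
  have h1 : ∃ δ, 1 ≤ δ ∧ ∀ T : ℕ, ∃ U V : Finset (ℕ × ℕ),
      (∀ x ∈ U, T < val p q x) ∧ (∀ x ∈ V, T < val p q x) ∧ sm p q U = sm p q V + δ := by
    by_contra hcon
    push Not at hcon
    choose! T hT using hcon
    obtain ⟨δ, hδ1, hδ2, U, V, hU, hV, hUV⟩ := hΔ (∑ δ ∈ range (Δ + 1), T δ)
    have hle : T δ ≤ ∑ δ ∈ range (Δ + 1), T δ :=
      Finset.single_le_sum (f := T) (fun _ _ => Nat.zero_le _) (mem_range.2 (by omega))
    exact hT δ hδ1 U V (fun x hx => lt_of_le_of_lt hle (hU x hx))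
      (fun x hx => lt_of_le_of_lt hle (hV x hx)) hUV
  obtain ⟨δ, hδ1, hδ⟩ := h1
  refine ⟨p ^ (c + 1) * δ, Nat.mul_pos (by positivity) hδ1, fun T => ?_⟩
  obtain ⟨U, V, hU, hV, hUV⟩ := hδ T
  refine ⟨glue (c + 1, 0) ∅ U, glue (c + 1, 0) ∅ V, ?_, ?_, ?_⟩
  · intro x hx
    rw [mem_glue] at hx
    rcases hx with hx | ⟨z, hz, rfl⟩
    · exact absurd hx (notMem_empty x)
    · refine ⟨by show c < z.1 + (c + 1); omega, ?_⟩
      rw [val_add, val_shift]
      exact lt_of_lt_of_le (hU z hz) (Nat.le_mul_of_pos_left _ (by positivity))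
  · intro x hx
    rw [mem_glue] at hx
    rcases hx with hx | ⟨z, hz, rfl⟩
    · exact absurd hx (notMem_empty x)
    · refine ⟨by show c < z.1 + (c + 1); omega, ?_⟩
      rw [val_add, val_shift]
      exact lt_of_lt_of_le (hV z hz) (Nat.le_mul_of_pos_left _ (by positivity))
  · have h0 : ∀ x ∈ (∅ : Finset (ℕ × ℕ)), ¬ ((c + 1, 0) : ℕ × ℕ) ≤ x := by
      intro x hx; exact absurd hx (notMem_empty x)
    rw [sm_glue p q _ h0, sm_glue p q _ h0, hUV, val_shift]
    ring

/-- Step 3: long arithmetic progressions of sums. -/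
lemma exists_ap {p q c δ : ℕ}
    (h : ∀ T : ℕ, ∃ U V : Finset (ℕ × ℕ),
      (∀ x ∈ U, c < x.1 ∧ T < val p q x) ∧ (∀ x ∈ V, c < x.1 ∧ T < val p q x) ∧
      sm p q U = sm p q V + δ) (T L : ℕ) :
    ∃ (G : Finset (ℕ × ℕ)) (v : ℕ), (∀ x ∈ G, c < x.1 ∧ T < val p q x) ∧
      ∀ j, j ≤ L → ∃ B, B ⊆ G ∧ sm p q B = v + j * δ := by
  classical
  induction L with
  | zero =>
    refine ⟨∅, 0, fun x hx => absurd hx (notMem_empty x), fun j hj => ⟨∅, Subset.refl _, ?_⟩⟩
    have : j = 0 := by omega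
    subst this
    simp [sm]
  | succ L ih =>
    obtain ⟨G, v, hG, hAP⟩ := ih
    obtain ⟨U, V, hU, hV, hUV⟩ := h (T + sm p q G)
    have hdisj : ∀ W : Finset (ℕ × ℕ), (∀ x ∈ W, c < x.1 ∧ T + sm p q G < val p q x) →
        ∀ B, B ⊆ G → Disjoint B W := by
      intro W hW B hB
      rw [Finset.disjoint_left]
      intro x hx hx'
      have h1 := (hW x hx').2
      have h2 := val_le_sm (p := p) (q := q) (hB hx)
      omega
    have hsum : ∀ W : Finset (ℕ × ℕ), (∀ x ∈ W, c < x.1 ∧ T + sm p q G < val p q x) →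
        ∀ B, B ⊆ G → sm p q (B ∪ W) = sm p q B + sm p q W := by
      intro W hW B hB
      unfold sm
      exact sum_union (hdisj W hW B hB)
    refine ⟨G ∪ (U ∪ V), v + sm p q V, ?_, ?_⟩
    · intro x hx
      rw [mem_union, mem_union] at hx
      rcases hx with hx | hx | hx
      · exact hG x hx
      · exact ⟨(hU x hx).1, by have := (hU x hx).2; omega⟩
      · exact ⟨(hV x hx).1, by have := (hV x hx).2; omega⟩
    · intro j hj
      rcases Nat.lt_or_ge j (L + 1) with hjL | hjL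
      · obtain ⟨B, hB, hBs⟩ := hAP j (by omega)
        refine ⟨B ∪ V, ?_, ?_⟩
        · exact union_subset_union hB subset_union_right
        · rw [hsum V hV B hB, hBs]; ring
      · have hj' : j = L + 1 := by omega
        subst hj'
        obtain ⟨B, hB, hBs⟩ := hAP L le_rfl
        refine ⟨B ∪ U, ?_, ?_⟩
        · exact union_subset_union hB subset_union_left
        · rw [hsum U hU B hB, hBs, hUV]; ring

/-- Step 4: pure powers cover all residues modulo any `δ`. -/
lemma exists_residue_set {p q δ : ℕ} (hpq : Nat.Coprime p q) (hδ : 1 ≤ δ) :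
    ∃ F : Finset (ℕ × ℕ), (∀ x ∈ F, x.1 = 0 ∨ x.2 = 0) ∧
      ∀ ρ : ℕ, ∃ A, A ⊆ F ∧ sm p q A ≡ ρ [MOD δ] := by
  classical
  have : NeZero δ := ⟨by omega⟩
  -- infinite fibres
  have hfib : ∀ g : ℕ, ∃ (y : ZMod δ) (I : Finset ℕ), I.card = δ ∧ (∀ a ∈ I, 1 ≤ a) ∧
      ∀ a ∈ I, ((g : ZMod δ)) ^ a = y := by
    intro g
    obtain ⟨y, hy⟩ := Finite.exists_infinite_fiber (fun a : ℕ => ((g : ZMod δ)) ^ (a + 1))
    have hinf : ((fun a : ℕ => ((g : ZMod δ)) ^ (a + 1)) ⁻¹' {y}).Infinite :=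
      Set.infinite_coe_iff.1 hy
    obtain ⟨I, hI1, hI2⟩ := hinf.exists_subset_card_eq δ
    refine ⟨y, I.image (fun a => a + 1), ?_, ?_, ?_⟩
    · rw [card_image_of_injective _ (add_left_injective 1), hI2]
    · intro a ha
      rw [mem_image] at ha
      obtain ⟨b, _, rfl⟩ := ha
      omega
    · intro a ha
      rw [mem_image] at ha
      obtain ⟨b, hb, rfl⟩ := ha
      exact hI1 hb
  obtain ⟨x, I, hIc, hI1, hIx⟩ := hfib p
  obtain ⟨y, K, hKc, hK1, hKy⟩ := hfib q
  have hIne : I.Nonempty := Finset.card_pos.1 (by omega)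
  have hKne : K.Nonempty := Finset.card_pos.1 (by omega)
  obtain ⟨a, ha⟩ := hIne
  obtain ⟨b, hb⟩ := hKne
  have hcop : IsCoprime x y := by
    have h1 : Nat.Coprime (p ^ a) (q ^ b) := Nat.Coprime.pow _ _ hpq
    have h2 : IsCoprime ((p ^ a : ℕ) : ℤ) ((q ^ b : ℕ) : ℤ) := Nat.isCoprime_iff_coprime.2 h1
    have h3 := h2.map (Int.castRingHom (ZMod δ))
    simpa [hIx a ha, hKy b hb] using h3
  obtain ⟨s, t, hst⟩ := hcop
  refine ⟨(I ×ˢ ({0} : Finset ℕ)) ∪ (({0} : Finset ℕ) ×ˢ K), ?_, ?_⟩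
  · intro z hz
    rw [mem_union, mem_product, mem_product, mem_singleton, mem_singleton] at hz
    rcases hz with hz | hz
    · right; exact hz.2
    · left; exact hz.1
  · intro ρ
    obtain ⟨I', hI', hI'c⟩ := Finset.exists_subset_card_eq
      (show ((ρ : ZMod δ) * s).val ≤ I.card by rw [hIc]; exact (ZMod.val_lt _).le)
    obtain ⟨K', hK', hK'c⟩ := Finset.exists_subset_card_eq
      (show ((ρ : ZMod δ) * t).val ≤ K.card by rw [hKc]; exact (ZMod.val_lt _).le)
    refine ⟨(I' ×ˢ ({0} : Finset ℕ)) ∪ (({0} : Finset ℕ) ×ˢ K'), ?_, ?_⟩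
    · exact union_subset_union (product_subset_product hI' (Subset.refl _))
        (product_subset_product (Subset.refl _) hK')
    · rw [← ZMod.natCast_eq_natCast_iff]
      unfold sm
      rw [sum_union, sum_product, sum_product, sum_singleton]
      · push_cast
        have e1 : ∀ i ∈ I', ∑ j ∈ ({0} : Finset ℕ), ((val p q (i, j) : ℕ) : ZMod δ) = x := by
          intro i hi
          rw [sum_singleton]
          simp [val, hIx i (hI' hi)]
        have e2 : ∀ j ∈ K', ((val p q (0, j) : ℕ) : ZMod δ) = y := by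
          intro j hj
          simp [val, hKy j (hK' hj)]
        rw [sum_congr rfl e1, sum_congr rfl e2, sum_const, sum_const, hI'c, hK'c, nsmul_eq_mul,
          nsmul_eq_mul, ZMod.natCast_val, ZMod.natCast_val, ZMod.cast_id, ZMod.cast_id]
        calc (ρ : ZMod δ) * s * x + ρ * t * y = ρ * (s * x + t * y) := by ring
          _ = ρ := by rw [hst, mul_one]
      · rw [Finset.disjoint_left]
        intro z hz hz'
        rw [mem_product, mem_singleton] at hz hz'
        have h1 := hI1 _ (hI' hz.1)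
        omega

/-- Extension lemma. -/
lemma extend_interval {p q α : ℕ} (Φ : Finset (ℕ × ℕ)) :
    ∀ (H : Finset (ℕ × ℕ)) (len : ℕ),
      (∀ m, α ≤ m → m ≤ α + len → ∃ B, B ⊆ H ∧ sm p q B = m) → Disjoint H Φ →
      (∀ x ∈ Φ, val p q x ≤ len + 1) →
      ∀ m, α ≤ m → m ≤ α + len + sm p q Φ → ∃ B, B ⊆ H ∪ Φ ∧ sm p q B = m := by
  classical
  induction Φ using Finset.induction_on with
  | empty =>
    intro H len hH _ _ m hm1 hm2
    rw [union_empty]
    exact hH m hm1 (by simpa [sm] using hm2)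
  | insert x Φ hx ih =>
    intro H len hH hdis hval m hm1 hm2
    have hsm : sm p q (insert x Φ) = val p q x + sm p q Φ := by unfold sm; rw [sum_insert hx]
    rw [hsm] at hm2
    have hdis' : Disjoint H Φ := hdis.mono_right (subset_insert x Φ)
    have ih' := ih H len hH hdis' (fun y hy => hval y (mem_insert_of_mem hy))
    have hxv := hval x (mem_insert_self x Φ)
    by_cases hcase : m ≤ α + len + sm p q Φ
    · obtain ⟨B, hB, hBs⟩ := ih' m hm1 hcase
      exact ⟨B, hB.trans (union_subset_union (Subset.refl _) (subset_insert x Φ)), hBs⟩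
    · obtain ⟨B, hB, hBs⟩ := ih' (m - val p q x) (by omega) (by omega)
      have hxB : x ∉ B := by
        intro h
        rcases mem_union.1 (hB h) with h1 | h1
        · exact Finset.disjoint_left.1 hdis h1 (mem_insert_self x Φ)
        · exact hx h1
      refine ⟨insert x B, ?_, ?_⟩
      · intro y hy
        rcases mem_insert.1 hy with rfl | hy
        · exact mem_union_right _ (mem_insert_self _ _)
        · rcases mem_union.1 (hB hy) with h1 | h1
          · exact mem_union_left _ h1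
          · exact mem_union_right _ (mem_insert_of_mem h1)
      · have : sm p q (insert x B) = val p q x + sm p q B := by unfold sm; rw [sum_insert hxB]
        rw [this, hBs]; omega

/-- The block of free elements at level `b`. -/
def block (p q c b : ℕ) : Finset (ℕ × ℕ) :=
  (Finset.Icc 1 c).image (fun i => (i, b - Nat.log q (p ^ i)))

lemma mem_block {p q c b : ℕ} {x : ℕ × ℕ} :
    x ∈ block p q c b ↔ 1 ≤ x.1 ∧ x.1 ≤ c ∧ x.2 = b - Nat.log q (p ^ x.1) := by
  unfold block
  rw [mem_image]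
  constructor
  · rintro ⟨i, hi, rfl⟩
    rw [mem_Icc] at hi
    exact ⟨hi.1, hi.2, rfl⟩
  · rintro ⟨h1, h2, h3⟩
    exact ⟨x.1, mem_Icc.2 ⟨h1, h2⟩, by rw [← h3]⟩

lemma log_le_log_of_le {p q c i : ℕ} (hp : 2 ≤ p) (hi : i ≤ c) :
    Nat.log q (p ^ i) ≤ Nat.log q (p ^ c) :=
  Nat.log_mono_right (Nat.pow_le_pow_right (by omega) hi)

lemma block_bounds {p q c b : ℕ} (hp : 2 ≤ p) (hq : 2 ≤ q) (hb : Nat.log q (p ^ c) ≤ b)
    {x : ℕ × ℕ} (hx : x ∈ block p q c b) : q ^ b ≤ val p q x ∧ val p q x < q ^ (b + 1) := by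
  rw [mem_block] at hx
  obtain ⟨_, h2, h3⟩ := hx
  have hlog := log_le_log_of_le (q := q) hp h2
  have h4 : q ^ Nat.log q (p ^ x.1) ≤ p ^ x.1 := Nat.pow_log_le_self q (by positivity)
  have h5 : p ^ x.1 < q ^ (Nat.log q (p ^ x.1)).succ := Nat.lt_pow_succ_log_self (by omega) _
  unfold val
  rw [h3]
  constructor
  · calc q ^ b = q ^ Nat.log q (p ^ x.1) * q ^ (b - Nat.log q (p ^ x.1)) := by
          rw [← pow_add]; congr 1; omega
      _ ≤ p ^ x.1 * q ^ (b - Nat.log q (p ^ x.1)) := Nat.mul_le_mul_right _ h4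
  · calc p ^ x.1 * q ^ (b - Nat.log q (p ^ x.1))
        < q ^ (Nat.log q (p ^ x.1)).succ * q ^ (b - Nat.log q (p ^ x.1)) :=
          Nat.mul_lt_mul_of_pos_right h5 (by positivity)
      _ = q ^ (b + 1) := by rw [← pow_add]; congr 1; omega

lemma card_block {p q c b : ℕ} : (block p q c b).card = c := by
  unfold block
  rw [card_image_of_injOn, Nat.card_Icc]
  · omega
  · intro i _ j _ hij
    exact congrArg Prod.fst hij

/-- **Birch's theorem with bounded exponents.** -/
theorem birch_davenport {p q : ℕ} (hp : 2 ≤ p) (hq : 2 ≤ q) (hpq : Nat.Coprime p q) :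
    ∃ k n₀ : ℕ, ∀ m, n₀ ≤ m → 1 ≤ cnt p q (strip k) m := by
  classical
  set c := q ^ 2 with hc
  obtain ⟨δ, hδ1, hδ⟩ := exists_fixed_diff hp hq hpq c
  obtain ⟨F, hF, hFres⟩ := exists_residue_set hpq hδ1
  set b₀ := Nat.log q (p ^ c) + 1 with hb₀
  set L := q ^ (b₀ + 1) + sm p q F with hL
  obtain ⟨G, v, hG, hAP⟩ := exists_ap hδ (sm p q F) L
  set α := v + sm p q F with hα
  have hFG : Disjoint F G := by
    rw [Finset.disjoint_left]
    intro x hx hx'
    have h1 := val_le_sm (p := p) (q := q) hx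
    have h2 := (hG x hx').2
    omega
  -- initial interval
  have hinit : ∀ m, α ≤ m → m ≤ α + q ^ (b₀ + 1) → ∃ B, B ⊆ F ∪ G ∧ sm p q B = m := by
    intro m hm1 hm2
    obtain ⟨A, hA, hAs⟩ := hFres (m - v)
    have hAF : sm p q A ≤ sm p q F := Finset.sum_le_sum_of_subset hA
    obtain ⟨j, hj⟩ := (Nat.modEq_iff_dvd' (show sm p q A ≤ m - v by omega)).1 hAs
    have hjL : j ≤ L := by
      have h1 : j ≤ δ * j := Nat.le_mul_of_pos_left _ hδ1
      omega
    obtain ⟨B, hB, hBs⟩ := hAP j hjL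
    refine ⟨A ∪ B, union_subset_union hA hB, ?_⟩
    have hdis : Disjoint A B := Finset.disjoint_of_subset_left hA
      (Finset.disjoint_of_subset_right hB hFG)
    have : sm p q (A ∪ B) = sm p q A + sm p q B := by unfold sm; exact sum_union hdis
    rw [this, hBs, mul_comm j δ, ← hj]
    omega
  -- the exponent bound
  obtain ⟨k, hk⟩ : ∃ k, c < k ∧ ∀ x ∈ F ∪ G, x.1 < k := by
    refine ⟨c + 1 + ∑ x ∈ F ∪ G, x.1, by omega, fun x hx => ?_⟩
    have := Finset.single_le_sum (f := fun x : ℕ × ℕ => x.1) (fun _ _ => Nat.zero_le _) hx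
    omega
  -- the induction
  have hind : ∀ i : ℕ, ∃ H : Finset (ℕ × ℕ),
      (∀ x ∈ H, x.1 < k ∧ ∀ b', b₀ + i ≤ b' → x ∉ block p q c b') ∧
      ∀ m, α ≤ m → m ≤ α + q ^ (b₀ + i + 1) → ∃ B, B ⊆ H ∧ sm p q B = m := by
    intro i
    induction i with
    | zero =>
      refine ⟨F ∪ G, ?_, hinit⟩
      intro x hx
      refine ⟨hk.2 x hx, fun b' hb' hxb => ?_⟩
      rw [mem_block] at hxb
      have hlog := log_le_log_of_le (q := q) hp hxb.2.1
      rcases mem_union.1 hx with hx | hx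
      · rcases hF x hx with h | h
        · omega
        · omega
      · have := (hG x hx).1
        omega
    | succ i ih =>
      obtain ⟨H, hH, hrep⟩ := ih
      have hdis : Disjoint H (block p q c (b₀ + i)) := by
        rw [Finset.disjoint_left]
        intro x hx hx'
        exact (hH x hx).2 _ le_rfl hx'
      have hbb : ∀ x ∈ block p q c (b₀ + i), q ^ (b₀ + i) ≤ val p q x ∧
          val p q x < q ^ (b₀ + i + 1) := fun x hx => block_bounds hp hq (by omega) hx
      refine ⟨H ∪ block p q c (b₀ + i), ?_, ?_⟩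
      · intro x hx
        rcases mem_union.1 hx with hx | hx
        · exact ⟨(hH x hx).1, fun b' hb' => (hH x hx).2 b' (by omega)⟩
        · rw [mem_block] at hx
          refine ⟨by omega, fun b' hb' hx' => ?_⟩
          rw [mem_block] at hx'
          have hlog := log_le_log_of_le (q := q) hp hx.2.1
          omega
      · intro m hm1 hm2
        refine extend_interval _ H (q ^ (b₀ + i + 1)) hrep hdis
          (fun x hx => by have := (hbb x hx).2; omega) m hm1 ?_
        have h1 : q ^ 2 * q ^ (b₀ + i) ≤ sm p q (block p q c (b₀ + i)) := by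
          have h2 := Finset.card_nsmul_le_sum (block p q c (b₀ + i)) (val p q) (q ^ (b₀ + i))
            (fun x hx => (hbb x hx).1)
          rw [card_block, smul_eq_mul] at h2
          exact h2
        have h3 : q ^ 2 * q ^ (b₀ + i) = q ^ (b₀ + (i + 1) + 1) := by
          rw [← pow_add]; congr 1; omega
        omega
  refine ⟨k, α, fun m hm => ?_⟩
  obtain ⟨H, hH, hrep⟩ := hind m
  obtain ⟨B, hB, hBs⟩ := hrep m hm (by
    have h1 : m < q ^ (b₀ + m + 1) := lt_trans (show m < b₀ + m + 1 by omega)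
      (Nat.lt_pow_self (by omega))
    omega)
  unfold cnt
  rw [Nat.one_le_iff_ne_zero, Ne, Finset.card_eq_zero, ← Ne, ← Finset.nonempty_iff_ne_empty]
  exact ⟨B, (mem_reps hp hq).2 ⟨fun x hx => (hH x (hB hx)).1, hBs⟩⟩

end Pool.Agent.Helper2Dil
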