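import Pool.Agent.Helper2_Dil.Basic

/-!
Equidistribution modulo `q` of the subset sums of `1, p, ..., p ^ (u - 1)`.
-/

set_option autoImplicit false

namespace Pool.Agent.Helper2Dil

open Finset

lemma norm_one_add_lt_two {z : ℂ} (hz : ‖z‖ = 1) (hne : z ≠ 1) : ‖1 + z‖ < 2 := by
  have h1 : ‖1 + z‖ ≤ 2 := by
    calc ‖1 + z‖ ≤ ‖(1 : ℂ)‖ + ‖z‖ := norm_add_le _ _
      _ = 2 := by rw [norm_one, hz]; norm_num
  refine lt_of_le_of_ne h1 ?_
  intro h2
  apply hne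
  have h3 : Complex.normSq z = 1 := by rw [Complex.normSq_eq_norm_sq, hz]; norm_num
  have h4 : Complex.normSq (1 + z) = 4 := by rw [Complex.normSq_eq_norm_sq, h2]; norm_num
  rw [Complex.normSq_apply] at h3 h4
  simp only [Complex.add_re, Complex.one_re, Complex.add_im, Complex.one_im, zero_add] at h4
  have h5 : z.re = 1 := by nlinarith
  have h6 : z.im = 0 := by
    rw [h5] at h3
    nlinarith [mul_self_nonneg z.im]
  exact Complex.ext (by simpa using h5) (by simpa using h6)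

lemma exists_rho (q : ℕ) [NeZero q] :
    ∃ ρ : ℝ, 0 ≤ ρ ∧ ρ < 2 ∧ ∀ ψ : AddChar (ZMod q) ℂ, ψ ≠ 0 → ∀ x : ZMod q, IsUnit x →
      ‖1 + ψ x‖ ≤ ρ := by
  classical
  let f : AddChar (ZMod q) ℂ × ZMod q → ℝ := fun y =>
    if y.1 ≠ 0 ∧ IsUnit y.2 then ‖1 + y.1 y.2‖ else 0
  obtain ⟨y₀, hy₀⟩ := Finite.exists_max f
  have hf : ∀ y, f y < 2 := by
    intro y
    simp only [f]
    split_ifs with h
    · refine norm_one_add_lt_two (AddChar.norm_apply _ _) ?_
      intro h1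
      apply h.1
      obtain ⟨v, hv⟩ := h.2
      ext z
      have h2 : z = ((v⁻¹ : (ZMod q)ˣ) * z : ZMod q).val • y.2 := by
        rw [nsmul_eq_mul, ZMod.natCast_val, ZMod.cast_id, ← hv, mul_comm ((v⁻¹ : (ZMod q)ˣ) : ZMod q) z,
          mul_assoc, Units.inv_mul, mul_one]
      rw [h2, AddChar.map_nsmul_eq_pow, h1, one_pow]
      simp
    · norm_num
  refine ⟨f y₀, ?_, hf y₀, ?_⟩
  · simp only [f]; split_ifs <;> positivity
  · intro ψ hψ x hx
    have := hy₀ (ψ, x)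
    simp only [f] at this
    rw [if_pos ⟨hψ, hx⟩] at this
    exact this

lemma addChar_sum {A ι : Type*} [AddCommMonoid A] (ψ : AddChar A ℂ) (s : Finset ι) (g : ι → A) :
    ψ (∑ i ∈ s, g i) = ∏ i ∈ s, ψ (g i) := by
  classical
  induction s using Finset.induction_on with
  | empty => simp
  | insert a s ha ih => rw [sum_insert ha, prod_insert ha, AddChar.map_add_eq_mul, ih]

lemma card_res_formula {p q u : ℕ} [NeZero q] (r : ℕ) :
    (q : ℂ) * ((res p q u r).card : ℂ) =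
      ∑ ψ : AddChar (ZMod q) ℂ, ψ (-(r : ZMod q)) * ∏ a ∈ range u, (1 + ψ ((p : ZMod q) ^ a)) := by
  classical
  have h1 : ∀ ψ : AddChar (ZMod q) ℂ, ∏ a ∈ range u, (1 + ψ ((p : ZMod q) ^ a)) =
      ∑ C ∈ (row u).powerset, ψ ((sm p q C : ℕ) : ZMod q) := by
    intro ψ
    have h2 : ∏ a ∈ range u, (1 + ψ ((p : ZMod q) ^ a)) =
        ∏ x ∈ row u, (1 + ψ ((val p q x : ℕ) : ZMod q)) := by
      unfold row
      rw [prod_product]
      refine prod_congr rfl (fun a _ => ?_)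
      rw [prod_singleton]
      simp [val]
    rw [h2, prod_one_add]
    refine sum_congr rfl (fun C _ => ?_)
    unfold sm
    rw [Nat.cast_sum, addChar_sum]
  have h3 : ∑ ψ : AddChar (ZMod q) ℂ,
      ψ (-(r : ZMod q)) * ∏ a ∈ range u, (1 + ψ ((p : ZMod q) ^ a)) =
      ∑ C ∈ (row u).powerset, ∑ ψ : AddChar (ZMod q) ℂ, ψ (((sm p q C : ℕ) : ZMod q) - r) := by
    rw [sum_comm]
    refine sum_congr rfl (fun ψ _ => ?_)
    rw [h1 ψ, mul_sum]
    refine sum_congr rfl (fun C _ => ?_)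
    rw [sub_eq_neg_add, AddChar.map_add_eq_mul]
  rw [h3]
  have h4 : ∀ C ∈ (row u).powerset, ∑ ψ : AddChar (ZMod q) ℂ, ψ (((sm p q C : ℕ) : ZMod q) - r) =
      if sm p q C ≡ r [MOD q] then (q : ℂ) else 0 := by
    intro C _
    rw [AddChar.sum_apply_eq_ite, ZMod.card]
    congr 1
    rw [sub_eq_zero, ZMod.natCast_eq_natCast_iff]
  rw [sum_congr rfl h4, ← sum_filter, sum_const, nsmul_eq_mul, mul_comm]
  rfl

lemma card_res_bound {p q : ℕ} [NeZero q] (hpq : Nat.Coprime p q) :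
    ∃ ρ : ℝ, 0 ≤ ρ ∧ ρ < 2 ∧ ∀ u r : ℕ,
      |((res p q u r).card : ℝ) - 2 ^ u / q| ≤ ρ ^ u := by
  classical
  obtain ⟨ρ, hρ0, hρ2, hρ⟩ := exists_rho q
  refine ⟨ρ, hρ0, hρ2, fun u r => ?_⟩
  have hq0 : (0 : ℝ) < q := by exact_mod_cast Nat.pos_of_ne_zero (NeZero.ne q)
  have hunit : IsUnit (p : ZMod q) := (ZMod.isUnit_iff_coprime p q).2 hpq
  have h1 := card_res_formula (p := p) (q := q) (u := u) r
  rw [← add_sum_erase univ _ (mem_univ (0 : AddChar (ZMod q) ℂ))] at h1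
  have h2 : (0 : AddChar (ZMod q) ℂ) (-(r : ZMod q)) *
      ∏ a ∈ range u, (1 + (0 : AddChar (ZMod q) ℂ) ((p : ZMod q) ^ a)) = 2 ^ u := by
    simp only [AddChar.zero_apply, one_mul, prod_const, card_range]
    norm_num
  rw [h2] at h1
  have h3 : ‖∑ ψ ∈ univ.erase (0 : AddChar (ZMod q) ℂ),
      ψ (-(r : ZMod q)) * ∏ a ∈ range u, (1 + ψ ((p : ZMod q) ^ a))‖ ≤ q * ρ ^ u := by
    calc _ ≤ ∑ ψ ∈ univ.erase (0 : AddChar (ZMod q) ℂ),
        ‖ψ (-(r : ZMod q)) * ∏ a ∈ range u, (1 + ψ ((p : ZMod q) ^ a))‖ := norm_sum_le _ _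
      _ ≤ ∑ ψ ∈ univ.erase (0 : AddChar (ZMod q) ℂ), ρ ^ u := by
          refine sum_le_sum (fun ψ hψ => ?_)
          rw [norm_mul, AddChar.norm_apply, one_mul, norm_prod]
          calc ∏ a ∈ range u, ‖1 + ψ ((p : ZMod q) ^ a)‖ ≤ ∏ _a ∈ range u, ρ :=
                prod_le_prod (fun _ _ => norm_nonneg _)
                  (fun a _ => hρ ψ (ne_of_mem_erase hψ) _ (hunit.pow a))
            _ = ρ ^ u := by rw [prod_const, card_range]
      _ = ((univ.erase (0 : AddChar (ZMod q) ℂ)).card : ℝ) * ρ ^ u := by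
          rw [sum_const, nsmul_eq_mul]
      _ ≤ q * ρ ^ u := by
          refine mul_le_mul_of_nonneg_right ?_ (pow_nonneg hρ0 u)
          have : (univ.erase (0 : AddChar (ZMod q) ℂ)).card ≤ q := by
            calc _ ≤ (univ : Finset (AddChar (ZMod q) ℂ)).card := card_erase_le
              _ = Fintype.card (AddChar (ZMod q) ℂ) := rfl
              _ = Fintype.card (ZMod q) := AddChar.card_eq
              _ = q := ZMod.card q
          exact_mod_cast this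
  have h4 : ‖(q : ℂ) * ((res p q u r).card : ℂ) - 2 ^ u‖ ≤ q * ρ ^ u := by
    rw [h1, add_sub_cancel_left]; exact h3
  have h5 : ‖(q : ℂ) * ((res p q u r).card : ℂ) - 2 ^ u‖ =
      q * |((res p q u r).card : ℝ) - 2 ^ u / q| := by
    have : (q : ℂ) * ((res p q u r).card : ℂ) - 2 ^ u =
        (((q : ℝ) * (((res p q u r).card : ℝ) - 2 ^ u / q) : ℝ) : ℂ) := by
      push_cast
      have hqc : (q : ℂ) ≠ 0 := by exact_mod_cast NeZero.ne q
      field_simp
    rw [this, Complex.norm_real, norm_mul, Real.norm_eq_abs, Real.norm_eq_abs, abs_of_pos hq0]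
  rw [h5] at h4
  exact le_of_mul_le_mul_left h4 hq0

/-- Equidistribution. -/
lemma equidistribution {p q : ℕ} (hq : 2 ≤ q) (hpq : Nat.Coprime p q) {η : ℝ} (hη : 0 < η) :
    ∃ u₀ : ℕ, ∀ u, u₀ ≤ u → ∀ r : ℕ,
      (2 : ℝ) ^ u / q * (1 - η) ≤ (res p q u r).card ∧
      ((res p q u r).card : ℝ) ≤ 2 ^ u / q * (1 + η) := by
  have : NeZero q := ⟨by omega⟩
  obtain ⟨ρ, hρ0, hρ2, hρ⟩ := card_res_bound hpq
  have hq0 : (0 : ℝ) < q := by exact_mod_cast (by omega : 0 < q)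
  have hlim : Filter.Tendsto (fun u : ℕ => (ρ / 2) ^ u) Filter.atTop (nhds 0) :=
    tendsto_pow_atTop_nhds_zero_of_lt_one (by positivity) (by linarith)
  have hev := (hlim.eventually (gt_mem_nhds (show (0 : ℝ) < η / q by positivity)))
  obtain ⟨u₀, hu₀⟩ := Filter.eventually_atTop.1 hev
  refine ⟨u₀, fun u hu r => ?_⟩
  have h1 := hu₀ u hu
  have h2 : ρ ^ u ≤ 2 ^ u / q * η := by
    rw [div_pow, div_lt_iff₀ (by positivity)] at h1
    calc ρ ^ u ≤ η / q * 2 ^ u := h1.le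
      _ = 2 ^ u / q * η := by ring
  have h3 := abs_le.1 (hρ u r)
  constructor
  · nlinarith [h3.1]
  · nlinarith [h3.2]

end Pool.Agent.Helper2Dil
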