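import Pool.Agent.Helper2_Dil.Birch

/-!
Growth of the number of representations under dilation.
-/

set_option autoImplicit false

namespace Pool.Agent.Helper2Dil

open Finset

/-! ### Symmetry -/

/-- Swap the two exponents. -/
def sw (B : Finset (ℕ × ℕ)) : Finset (ℕ × ℕ) := B.image Prod.swap

lemma mem_sw {B : Finset (ℕ × ℕ)} {x : ℕ × ℕ} : x ∈ sw B ↔ x.swap ∈ B := by
  unfold sw
  rw [mem_image]
  constructor
  · rintro ⟨y, hy, rfl⟩; rw [Prod.swap_swap]; exact hy
  · intro h; exact ⟨x.swap, h, Prod.swap_swap x⟩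

lemma sw_sw (B : Finset (ℕ × ℕ)) : sw (sw B) = B := by
  ext x; rw [mem_sw, mem_sw, Prod.swap_swap]

lemma sm_sw (p q : ℕ) (B : Finset (ℕ × ℕ)) : sm q p (sw B) = sm p q B := by
  unfold sm sw
  rw [sum_image (fun x _ y _ h => Prod.swap_injective h)]
  refine sum_congr rfl (fun x _ => ?_)
  unfold val; simp [mul_comm]

lemma card_tot_comm {p q : ℕ} (hp : 2 ≤ p) (hq : 2 ≤ q) (x : ℕ) :
    (tot p q x).card = (tot q p x).card := by
  refine Finset.card_nbij' sw sw ?_ ?_ (fun B _ => sw_sw B) (fun B _ => sw_sw B)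
  · intro B hB
    rw [Finset.mem_coe, mem_tot hp hq] at hB
    rw [Finset.mem_coe, mem_tot hq hp, sm_sw]; exact hB
  · intro B hB
    rw [Finset.mem_coe, mem_tot hq hp] at hB
    rw [Finset.mem_coe, mem_tot hp hq, sm_sw]; exact hB

lemma cnt_comm {p q : ℕ} (hp : 2 ≤ p) (hq : 2 ≤ q) (n : ℕ) :
    cnt p q Set.univ n = cnt q p Set.univ n := by
  unfold cnt
  refine Finset.card_nbij' sw sw ?_ ?_ (fun B _ => sw_sw B) (fun B _ => sw_sw B)
  · intro B hB
    rw [Finset.mem_coe, mem_reps hp hq] at hB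
    rw [Finset.mem_coe, mem_reps hq hp, sm_sw]; exact ⟨fun _ _ => Set.mem_univ _, hB.2⟩
  · intro B hB
    rw [Finset.mem_coe, mem_reps hq hp] at hB
    rw [Finset.mem_coe, mem_reps hp hq, sm_sw]; exact ⟨fun _ _ => Set.mem_univ _, hB.2⟩

/-! ### The core inequality -/

lemma core {p q ℓ u k A a n₀ : ℕ} (hp : 2 ≤ p) (hq : 2 ≤ q) (hk : 1 ≤ k)
    (hℓ : 1 ≤ ℓ) (hM : q ^ k * ℓ < p ^ u)
    (hA : ∀ r, (res p q u r).card ≤ A) (hA1 : 1 ≤ A)
    (ha : ∀ r, a ≤ (res q p k r).card) (ha1 : 1 ≤ a)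
    (hbase : ∀ m, n₀ ≤ m → 1 ≤ cnt q p (strip k) m) :
    ∃ C : ℝ, 0 < C ∧ ∃ N₀ : ℕ, ∀ n : ℕ, N₀ ≤ n →
      (cnt p q Set.univ (ℓ * n) : ℝ) ≤
        C * (n : ℝ) ^ (Real.log A / Real.log q - Real.log a / Real.log p) *
          cnt p q Set.univ n := by
  set D := sm q p (row k) with hD
  have hDpos : 1 ≤ D := by
    have h1 : ((0, 0) : ℕ × ℕ) ∈ row k := mem_row.2 ⟨hk, rfl⟩
    have h2 := val_le_sm (p := q) (q := p) h1
    have h3 := val_pos hq hp (0, 0)
    omega
  set K := p ^ u * (n₀ + D) with hK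
  have hKpos : 0 < K := Nat.mul_pos (by positivity) (by omega)
  set α := Real.log A / Real.log q with hα
  set β := Real.log a / Real.log p with hβ
  have hpR : (1 : ℝ) < p := by exact_mod_cast (by omega : 1 < p)
  have hqR : (1 : ℝ) < q := by exact_mod_cast (by omega : 1 < q)
  have hlogp : 0 < Real.log p := Real.log_pos hpR
  have hlogq : 0 < Real.log q := Real.log_pos hqR
  have hAR : (1 : ℝ) ≤ A := by exact_mod_cast hA1
  have haR : (1 : ℝ) ≤ a := by exact_mod_cast ha1
  have hα0 : 0 ≤ α := div_nonneg (Real.log_nonneg hAR) hlogq.le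
  have hβ0 : 0 ≤ β := div_nonneg (Real.log_nonneg haR) hlogp.le
  have hKR : (0 : ℝ) < K := by exact_mod_cast hKpos
  have hℓR : (0 : ℝ) < ℓ := by exact_mod_cast hℓ
  refine ⟨A * a * (ℓ : ℝ) ^ α * (K : ℝ) ^ β, by positivity, K, fun n hn => ?_⟩
  have hnpos : 0 < n := lt_of_lt_of_le hKpos hn
  have hnR : (0 : ℝ) < n := by exact_mod_cast hnpos
  set x := ℓ * n / p ^ u with hx
  have hpu : 0 < p ^ u := by positivity
  set T := (tot p q x).card with hT
  -- upper bound
  set J := Nat.log q (ℓ * n) with hJ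
  have hup : cnt p q Set.univ (ℓ * n) ≤ A ^ (J + 1) * T := by
    refine cnt_univ_le (u := u) hp hq (fun y hy => ?_) ?_
    · refine cnt_strip_le hp hq hA (J + 1) y ?_
      exact lt_of_le_of_lt hy (Nat.lt_pow_succ_log_self (by omega) _)
    · rw [hx]; exact Nat.lt_mul_div_succ _ hpu
  -- lower bound
  set J' := Nat.log p (n / K) with hJ'
  have hlow : a ^ J' * T ≤ cnt p q Set.univ n := by
    rw [cnt_comm hp hq, hT, card_tot_comm hp hq]
    refine le_cnt_univ (k := k) hq hp (fun c hc => ?_)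
    have h1 : p ^ u * c ≤ ℓ * n := by
      calc p ^ u * c ≤ p ^ u * x := Nat.mul_le_mul_left _ hc
        _ ≤ ℓ * n := Nat.mul_div_le _ _
    have h2 : p ^ u * (q ^ k * c) + n ≤ p ^ u * n := by
      calc p ^ u * (q ^ k * c) + n = q ^ k * (p ^ u * c) + n := by ring
        _ ≤ q ^ k * (ℓ * n) + n := by
            have := Nat.mul_le_mul_left (q ^ k) h1
            omega
        _ = (q ^ k * ℓ + 1) * n := by ring
        _ ≤ p ^ u * n := Nat.mul_le_mul_right _ hM
    have h3 : q ^ k * c ≤ n := by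
      have : p ^ u * (q ^ k * c) ≤ p ^ u * n := by omega
      exact Nat.le_of_mul_le_mul_left this hpu
    refine ⟨h3, ?_⟩
    refine le_cnt_strip hq hp ha hbase J' _ ?_
    have h4 : p ^ J' ≤ n / K := Nat.pow_log_le_self p (by
      have := Nat.div_pos hn hKpos; omega)
    have h5 : p ^ J' * K ≤ n := by
      calc p ^ J' * K ≤ n / K * K := Nat.mul_le_mul_right _ h4
        _ ≤ n := Nat.div_mul_le_self _ _
    have h6 : n ≤ p ^ u * (n - q ^ k * c) := by
      rw [Nat.mul_sub]; omega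
    have h7 : p ^ u * (p ^ J' * (n₀ + D)) ≤ p ^ u * (n - q ^ k * c) := by
      calc p ^ u * (p ^ J' * (n₀ + D)) = p ^ J' * K := by rw [hK]; ring
        _ ≤ n := h5
        _ ≤ _ := h6
    have h8 := Nat.le_of_mul_le_mul_left h7 hpu
    exact le_trans h8 (Nat.le_add_right _ _)
  -- real estimates
  have hupR : (cnt p q Set.univ (ℓ * n) : ℝ) ≤ (A : ℝ) ^ (J + 1) * T := by exact_mod_cast hup
  have hlowR : (a : ℝ) ^ J' * T ≤ cnt p q Set.univ n := by exact_mod_cast hlow
  have hA2 : (A : ℝ) ^ (J + 1) ≤ A * ((ℓ : ℝ) * n) ^ α := by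
    rw [pow_succ']
    refine mul_le_mul_of_nonneg_left ?_ (by linarith)
    have h1 : ((q : ℝ)) ^ J ≤ (ℓ : ℝ) * n := by
      have : q ^ J ≤ ℓ * n := Nat.pow_log_le_self q (by positivity)
      exact_mod_cast this
    have h2 : (J : ℝ) * Real.log q ≤ Real.log ((ℓ : ℝ) * n) := by
      rw [← Real.log_pow]
      exact Real.log_le_log (by positivity) h1
    rw [← Real.rpow_natCast, Real.rpow_def_of_pos (by linarith), Real.rpow_def_of_pos (by positivity)]
    refine Real.exp_le_exp.2 ?_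
    have h3 : (J : ℝ) ≤ Real.log ((ℓ : ℝ) * n) / Real.log q := by
      rw [le_div_iff₀ hlogq]; exact h2
    calc Real.log A * J ≤ Real.log A * (Real.log ((ℓ : ℝ) * n) / Real.log q) :=
          mul_le_mul_of_nonneg_left h3 (Real.log_nonneg hAR)
      _ = Real.log ((ℓ : ℝ) * n) * α := by rw [hα]; ring
  have ha2 : ((n : ℝ) / K) ^ β ≤ a * (a : ℝ) ^ J' := by
    rw [← pow_succ']
    have h1 : n < K * p ^ (J' + 1) := by
      have h2 : n / K < p ^ (J' + 1) := Nat.lt_pow_succ_log_self (by omega) _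
      have h3 : n < K * (n / K + 1) := Nat.lt_mul_div_succ _ hKpos
      exact lt_of_lt_of_le h3 (Nat.mul_le_mul_left _ h2)
    have h2 : (n : ℝ) / K ≤ (p : ℝ) ^ (J' + 1) := by
      rw [div_le_iff₀ hKR, mul_comm]
      exact_mod_cast h1.le
    have h3 : Real.log ((n : ℝ) / K) ≤ ((J' + 1 : ℕ) : ℝ) * Real.log p := by
      rw [← Real.log_pow]
      exact Real.log_le_log (by positivity) h2
    rw [← Real.rpow_natCast, Real.rpow_def_of_pos (by positivity), Real.rpow_def_of_pos (by linarith)]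
    refine Real.exp_le_exp.2 ?_
    have h4 : Real.log ((n : ℝ) / K) / Real.log p ≤ ((J' + 1 : ℕ) : ℝ) := by
      rw [div_le_iff₀ hlogp]; exact h3
    calc Real.log ((n : ℝ) / K) * β = Real.log a * (Real.log ((n : ℝ) / K) / Real.log p) := by
          rw [hβ]; ring
      _ ≤ Real.log a * ((J' + 1 : ℕ) : ℝ) := mul_le_mul_of_nonneg_left h4 (Real.log_nonneg haR)
  have hT0 : (0 : ℝ) ≤ T := Nat.cast_nonneg _
  have hkey : ((n : ℝ) / K) ^ β * T ≤ a * cnt p q Set.univ n := by
    calc ((n : ℝ) / K) ^ β * T ≤ a * (a : ℝ) ^ J' * T := mul_le_mul_of_nonneg_right ha2 hT0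
      _ = a * ((a : ℝ) ^ J' * T) := by ring
      _ ≤ a * cnt p q Set.univ n := mul_le_mul_of_nonneg_left hlowR (by linarith)
  have hT1 : (T : ℝ) ≤ a * cnt p q Set.univ n * ((K : ℝ) ^ β * (n : ℝ) ^ (-β)) := by
    have h1 : ((n : ℝ) / K) ^ β = ((K : ℝ) ^ β * (n : ℝ) ^ (-β))⁻¹ := by
      rw [Real.div_rpow hnR.le hKR.le, Real.rpow_neg hnR.le]
      field_simp
    rw [h1, inv_mul_le_iff₀ (by positivity)] at hkey
    linarith [hkey, mul_comm (a * (cnt p q Set.univ n : ℝ)) ((K : ℝ) ^ β * (n : ℝ) ^ (-β))]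
  calc (cnt p q Set.univ (ℓ * n) : ℝ) ≤ (A : ℝ) ^ (J + 1) * T := hupR
    _ ≤ (A * ((ℓ : ℝ) * n) ^ α) * (a * cnt p q Set.univ n * ((K : ℝ) ^ β * (n : ℝ) ^ (-β))) :=
        mul_le_mul hA2 hT1 hT0 (by positivity)
    _ = A * a * (ℓ : ℝ) ^ α * (K : ℝ) ^ β * (n : ℝ) ^ (α - β) * cnt p q Set.univ n := by
        rw [Real.mul_rpow hℓR.le hnR.le, sub_eq_add_neg, Real.rpow_add hnR]
        ring

/-! ### Choice of the exponents -/

lemma irrational_log_div {p q : ℕ} (hp : 2 ≤ p) (hq : 2 ≤ q) (hpq : Nat.Coprime p q) :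
    Irrational (Real.log p / Real.log q) := by
  have hpR : (1 : ℝ) < p := by exact_mod_cast (by omega : 1 < p)
  have hqR : (1 : ℝ) < q := by exact_mod_cast (by omega : 1 < q)
  have hlogp : 0 < Real.log p := Real.log_pos hpR
  have hlogq : 0 < Real.log q := Real.log_pos hqR
  rintro ⟨r, hr⟩
  have hrpos : (0 : ℝ) < r := by rw [hr]; positivity
  have hrpos' : 0 < r := by exact_mod_cast hrpos
  have hnum : 0 < r.num := Rat.num_pos.2 hrpos'
  have h1 : (r.den : ℝ) * Real.log p = (r.num : ℝ) * Real.log q := by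
    have h2 : (r : ℝ) = (r.num : ℝ) / (r.den : ℝ) := by exact_mod_cast (Rat.num_div_den r).symm
    have hden : (r.den : ℝ) ≠ 0 := by exact_mod_cast r.den_nz
    rw [h2] at hr
    field_simp at hr
    linarith
  obtain ⟨m, hm⟩ := Int.eq_ofNat_of_zero_le hnum.le
  rw [hm] at h1
  have h3 : Real.log ((p : ℝ) ^ r.den) = Real.log ((q : ℝ) ^ m) := by
    rw [Real.log_pow, Real.log_pow]; exact_mod_cast h1
  have h4 : (p : ℝ) ^ r.den = (q : ℝ) ^ m :=
    Real.log_injOn_pos (Set.mem_Ioi.2 (by positivity)) (Set.mem_Ioi.2 (by positivity)) h3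
  have h5 : p ^ r.den = q ^ m := by exact_mod_cast h4
  have h6 : Nat.Coprime (p ^ r.den) (q ^ m) := Nat.Coprime.pow _ _ hpq
  rw [h5, Nat.coprime_self] at h6
  have h7 : p ^ r.den = 1 := by rw [h5, h6]
  have h8 : 1 < p ^ r.den := Nat.one_lt_pow r.den_nz (by omega)
  omega

/-- Good pairs of exponents. -/
lemma exists_good_pair {p q : ℕ} (hp : 2 ≤ p) (hq : 2 ≤ q) (hpq : Nat.Coprime p q)
    {ℓ : ℕ} (hℓ : 2 ≤ ℓ) {e : ℝ} (he : 0 < e) (K₀ : ℕ) :
    ∃ u k : ℕ, K₀ ≤ u ∧ K₀ ≤ k ∧
      ((Real.log ℓ < u * Real.log p - k * Real.log q ∧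
          u * Real.log p - k * Real.log q < Real.log ℓ + e) ∨
       (Real.log ℓ < u * Real.log q - k * Real.log p ∧
          u * Real.log q - k * Real.log p < Real.log ℓ + e)) := by
  have hpR : (1 : ℝ) < p := by exact_mod_cast (by omega : 1 < p)
  have hqR : (1 : ℝ) < q := by exact_mod_cast (by omega : 1 < q)
  have hlogp : 0 < Real.log p := Real.log_pos hpR
  have hlogq : 0 < Real.log q := Real.log_pos hqR
  have hlogp2 : Real.log 2 ≤ Real.log p := Real.log_le_log (by norm_num) (by exact_mod_cast hp)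
  have hlogq2 : Real.log 2 ≤ Real.log q := Real.log_le_log (by norm_num) (by exact_mod_cast hq)
  have hlog2 : 0 < Real.log 2 := Real.log_pos (by norm_num)
  have hlogℓ : Real.log 2 ≤ Real.log ℓ := Real.log_le_log (by norm_num) (by exact_mod_cast hℓ)
  set δ := min e (Real.log 2 / (K₀ + 1)) with hδ
  have hδpos : 0 < δ := lt_min he (by positivity)
  have hdense := dense_addSubgroupClosure_pair_iff.2 (irrational_log_div hp hq hpq)
  obtain ⟨θ, hθmem, hθ0, hθδ⟩ := hdense.exists_between hδpos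
  rw [SetLike.mem_coe, AddSubgroup.mem_closure_pair] at hθmem
  obtain ⟨i, j, hij⟩ := hθmem
  rw [zsmul_eq_mul, zsmul_eq_mul] at hij
  have hθe : θ < e := lt_of_lt_of_le hθδ (min_le_left _ _)
  have hθK : θ < Real.log 2 / (K₀ + 1) := lt_of_lt_of_le hθδ (min_le_right _ _)
  have hθ2 : θ < Real.log 2 := by
    refine lt_of_lt_of_le hθK (div_le_self hlog2.le ?_)
    have : (0 : ℝ) ≤ K₀ := Nat.cast_nonneg _
    linarith
  -- the multiplier
  set m := ⌊Real.log ℓ / θ⌋₊ + 1 with hm
  have hm1 : Real.log ℓ < m * θ := by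
    have := Nat.lt_floor_add_one (Real.log ℓ / θ)
    rw [div_lt_iff₀ hθ0] at this
    rw [hm]; push_cast; exact this
  have hm2 : m * θ < Real.log ℓ + e := by
    have := Nat.floor_le (show 0 ≤ Real.log ℓ / θ by positivity)
    rw [le_div_iff₀ hθ0] at this
    rw [hm]; push_cast
    nlinarith
  have hmK : K₀ ≤ m := by
    have h1 : ((K₀ : ℝ) + 1) * θ < Real.log 2 := by
      rw [lt_div_iff₀ (by positivity)] at hθK
      linarith
    have h2 : ((K₀ : ℝ) + 1) * θ < m * θ := by linarith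
    have h3 : ((K₀ : ℝ) + 1) < m := lt_of_mul_lt_mul_right h2 hθ0.le
    have h4 : (K₀ : ℝ) < m := by linarith
    exact_mod_cast h4.le
  rcases lt_trichotomy i 0 with hi | hi | hi
  · -- i < 0, so j > 0
    have hiR : (i : ℝ) ≤ -1 := by exact_mod_cast (by omega : i ≤ -1)
    have hj : 0 < j := by
      by_contra hcon
      have hjR : (j : ℝ) ≤ 0 := by exact_mod_cast (by omega : j ≤ 0)
      nlinarith
    obtain ⟨i', hi'⟩ := Int.eq_ofNat_of_zero_le (show 0 ≤ -i by omega)
    obtain ⟨j', hj'⟩ := Int.eq_ofNat_of_zero_le hj.le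
    have hi'1 : 1 ≤ i' := by omega
    have hj'1 : 1 ≤ j' := by omega
    have hiR' : (i : ℝ) = -(i' : ℝ) := by
      have : i = -(i' : ℤ) := by omega
      rw [this]; push_cast; ring
    have hjR' : (j : ℝ) = (j' : ℝ) := by rw [hj']; push_cast; ring
    refine ⟨m * j', m * i', le_trans hmK (Nat.le_mul_of_pos_right _ hj'1),
      le_trans hmK (Nat.le_mul_of_pos_right _ hi'1), Or.inr ?_⟩
    have h5 : ((m * j' : ℕ) : ℝ) * Real.log q - ((m * i' : ℕ) : ℝ) * Real.log p = m * θ := by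
      push_cast
      rw [← hij, hiR', hjR']; ring
    rw [h5]
    exact ⟨hm1, hm2⟩
  · -- i = 0
    exfalso
    rw [hi] at hij
    have hj : 0 < j := by
      by_contra hcon
      have hjR : (j : ℝ) ≤ 0 := by exact_mod_cast (by omega : j ≤ 0)
      push_cast at hij
      nlinarith
    have hjR : (1 : ℝ) ≤ j := by exact_mod_cast (by omega : 1 ≤ j)
    push_cast at hij
    nlinarith
  · -- i > 0, so j < 0
    have hiR : (1 : ℝ) ≤ i := by exact_mod_cast (by omega : 1 ≤ i)
    have hj : j < 0 := by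
      by_contra hcon
      have hjR : (0 : ℝ) ≤ j := by exact_mod_cast (by omega : 0 ≤ j)
      nlinarith
    obtain ⟨i', hi'⟩ := Int.eq_ofNat_of_zero_le hi.le
    obtain ⟨j', hj'⟩ := Int.eq_ofNat_of_zero_le (show 0 ≤ -j by omega)
    have hi'1 : 1 ≤ i' := by omega
    have hj'1 : 1 ≤ j' := by omega
    have hjR' : (j : ℝ) = -(j' : ℝ) := by
      have : j = -(j' : ℤ) := by omega
      rw [this]; push_cast; ring
    have hiR' : (i : ℝ) = (i' : ℝ) := by rw [hi']; push_cast; ring
    refine ⟨m * i', m * j', le_trans hmK (Nat.le_mul_of_pos_right _ hi'1),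
      le_trans hmK (Nat.le_mul_of_pos_right _ hj'1), Or.inl ?_⟩
    have h5 : ((m * i' : ℕ) : ℝ) * Real.log p - ((m * j' : ℕ) : ℝ) * Real.log q = m * θ := by
      push_cast
      rw [← hij, hiR', hjR']; ring
    rw [h5]
    exact ⟨hm1, hm2⟩

/-- One-sided version of the final estimate. -/
lemma one_side {p q ℓ : ℕ} (hp : 2 ≤ p) (hq : 2 ≤ q) (hℓ : 1 ≤ ℓ)
    {η e : ℝ} (hη : 0 < η) (hη1 : η < 1) {u k : ℕ} (hk1 : 1 ≤ k)
    (hu : ∀ r : ℕ, ((res p q u r).card : ℝ) ≤ 2 ^ u / q * (1 + η))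
    (hk : ∀ r : ℕ, (2 : ℝ) ^ k / p * (1 - η) ≤ (res q p k r).card)
    {n₀ : ℕ} (hbase : ∀ m, n₀ ≤ m → 1 ≤ cnt q p (strip k) m)
    (h1 : Real.log ℓ < u * Real.log p - k * Real.log q)
    (h2 : u * Real.log p - k * Real.log q < Real.log ℓ + e) :
    ∃ C : ℝ, 0 < C ∧ ∃ N₀ : ℕ, ∀ n : ℕ, N₀ ≤ n →
      (cnt p q Set.univ (ℓ * n) : ℝ) ≤
        C * (n : ℝ) ^ (Real.log 2 * Real.log ℓ / (Real.log p * Real.log q) +
          (Real.log 2 * e / (Real.log p * Real.log q) + Real.log (1 + η) / Real.log q -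
            Real.log (1 - η) / Real.log p)) *
          cnt p q Set.univ n := by
  have hpR : (1 : ℝ) < p := by exact_mod_cast (by omega : 1 < p)
  have hqR : (1 : ℝ) < q := by exact_mod_cast (by omega : 1 < q)
  have hlogp : 0 < Real.log p := Real.log_pos hpR
  have hlogq : 0 < Real.log q := Real.log_pos hqR
  have hlog2 : 0 < Real.log 2 := Real.log_pos (by norm_num)
  have hM : q ^ k * ℓ < p ^ u := by
    have hℓR : (0 : ℝ) < ℓ := by exact_mod_cast hℓ
    have h3 : Real.log ((q : ℝ) ^ k * ℓ) < Real.log ((p : ℝ) ^ u) := by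
      rw [Real.log_mul (by positivity) (by positivity), Real.log_pow, Real.log_pow]
      linarith
    have h4 := (Real.log_lt_log_iff (by positivity) (by positivity)).1 h3
    exact_mod_cast h4
  set A := ⌊(2 : ℝ) ^ u / q * (1 + η)⌋₊ with hA
  set a := ⌈(2 : ℝ) ^ k / p * (1 - η)⌉₊ with ha
  have hA' : ∀ r, (res p q u r).card ≤ A := fun r => Nat.le_floor (hu r)
  have ha' : ∀ r, a ≤ (res q p k r).card := fun r => Nat.ceil_le.2 (hk r)
  have ha1 : 1 ≤ a := Nat.one_le_iff_ne_zero.2 (Nat.ceil_pos.2 (by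
    have : 0 < 1 - η := by linarith
    positivity)).ne'
  have hA1 : 1 ≤ A := by
    refine le_trans ?_ (hA' 0)
    rw [Nat.one_le_iff_ne_zero, Ne, Finset.card_eq_zero, ← Ne, ← Finset.nonempty_iff_ne_empty]
    exact ⟨∅, mem_res.2 ⟨Finset.empty_subset _, by simp [sm, Nat.ModEq]⟩⟩
  obtain ⟨C, hC, N₀, hN₀⟩ := core hp hq hk1 hℓ hM hA' hA1 ha' ha1 hbase
  refine ⟨C, hC, max N₀ 1, fun n hn => ?_⟩
  refine le_trans (hN₀ n (le_trans (le_max_left _ _) hn)) ?_
  have hn1 : (1 : ℝ) ≤ n := by exact_mod_cast le_trans (le_max_right _ _) hn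
  refine mul_le_mul_of_nonneg_right ?_ (Nat.cast_nonneg _)
  refine mul_le_mul_of_nonneg_left ?_ hC.le
  refine Real.rpow_le_rpow_of_exponent_le hn1 ?_
  have hAle : (A : ℝ) ≤ 2 ^ u / q * (1 + η) := Nat.floor_le (by positivity)
  have hale : (2 : ℝ) ^ k / p * (1 - η) ≤ a := Nat.le_ceil _
  have hη' : 0 < 1 - η := by linarith
  have hlogA : Real.log A ≤ u * Real.log 2 - Real.log q + Real.log (1 + η) := by
    have h3 : Real.log A ≤ Real.log (2 ^ u / q * (1 + η)) :=
      Real.log_le_log (by exact_mod_cast hA1) hAle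
    rw [Real.log_mul (by positivity) (by positivity), Real.log_div (by positivity) (by positivity),
      Real.log_pow] at h3
    exact h3
  have hloga : k * Real.log 2 - Real.log p + Real.log (1 - η) ≤ Real.log a := by
    have h3 : Real.log (2 ^ k / p * (1 - η)) ≤ Real.log a :=
      Real.log_le_log (by positivity) hale
    rw [Real.log_mul (by positivity) (by positivity), Real.log_div (by positivity) (by positivity),
      Real.log_pow] at h3
    exact h3
  have e1 : Real.log A / Real.log q ≤ (u * Real.log 2 - Real.log q + Real.log (1 + η)) / Real.log q :=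
    div_le_div_of_nonneg_right hlogA hlogq.le
  have e2 : (k * Real.log 2 - Real.log p + Real.log (1 - η)) / Real.log p ≤ Real.log a / Real.log p :=
    div_le_div_of_nonneg_right hloga hlogp.le
  have e3 : (u * Real.log 2 - Real.log q + Real.log (1 + η)) / Real.log q -
      (k * Real.log 2 - Real.log p + Real.log (1 - η)) / Real.log p =
      Real.log 2 * (u * Real.log p - k * Real.log q) / (Real.log p * Real.log q) +
        Real.log (1 + η) / Real.log q - Real.log (1 - η) / Real.log p := by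
    field_simp
    ring
  have e4 : Real.log 2 * (u * Real.log p - k * Real.log q) / (Real.log p * Real.log q) ≤
      Real.log 2 * (Real.log ℓ + e) / (Real.log p * Real.log q) :=
    div_le_div_of_nonneg_right (mul_le_mul_of_nonneg_left h2.le hlog2.le) (by positivity)
  have e5 : Real.log 2 * (Real.log ℓ + e) / (Real.log p * Real.log q) =
      Real.log 2 * Real.log ℓ / (Real.log p * Real.log q) +
        Real.log 2 * e / (Real.log p * Real.log q) := by
    rw [mul_add, add_div]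
  linarith

/-- **Main theorem** in exponent space. -/
theorem cnt_dilation {p q ℓ : ℕ} (hp : 2 ≤ p) (hq : 2 ≤ q) (hpq : Nat.Coprime p q)
    (hℓ : 2 ≤ ℓ) {ε : ℝ} (hε : 0 < ε) :
    ∃ C : ℝ, 0 < C ∧ ∃ N₀ : ℕ, ∀ n : ℕ, N₀ ≤ n →
      (cnt p q Set.univ (ℓ * n) : ℝ) ≤
        C * (n : ℝ) ^ (Real.log 2 * Real.log ℓ / (Real.log p * Real.log q) + ε) *
          cnt p q Set.univ n := by
  have hpR : (1 : ℝ) < p := by exact_mod_cast (by omega : 1 < p)
  have hqR : (1 : ℝ) < q := by exact_mod_cast (by omega : 1 < q)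
  have hlogp : 0 < Real.log p := Real.log_pos hpR
  have hlogq : 0 < Real.log q := Real.log_pos hqR
  have hlog2 : 0 < Real.log 2 := Real.log_pos (by norm_num)
  -- choose e and η
  set e := ε * (Real.log p * Real.log q) / (2 * Real.log 2) with he
  have hepos : 0 < e := by positivity
  have hee : Real.log 2 * e / (Real.log p * Real.log q) = ε / 2 := by
    rw [he]; field_simp
  -- continuity at η = 0
  obtain ⟨η, hη0, hη1, hη2⟩ : ∃ η : ℝ, 0 < η ∧ η < 1 ∧
      (Real.log (1 + η) / Real.log q - Real.log (1 - η) / Real.log p ≤ ε / 2 ∧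
        Real.log (1 + η) / Real.log p - Real.log (1 - η) / Real.log q ≤ ε / 2) := by
    have hc1 : Filter.Tendsto (fun η : ℝ => Real.log (1 + η) / Real.log q -
        Real.log (1 - η) / Real.log p) (nhds 0) (nhds 0) := by
      have : ContinuousAt (fun η : ℝ => Real.log (1 + η) / Real.log q -
        Real.log (1 - η) / Real.log p) 0 := by
        refine ContinuousAt.sub (ContinuousAt.div_const (ContinuousAt.log (by fun_prop) (by norm_num)) _)
          (ContinuousAt.div_const (ContinuousAt.log (by fun_prop) (by norm_num)) _)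
      have h := this.tendsto
      simpa using h
    have hc2 : Filter.Tendsto (fun η : ℝ => Real.log (1 + η) / Real.log p -
        Real.log (1 - η) / Real.log q) (nhds 0) (nhds 0) := by
      have : ContinuousAt (fun η : ℝ => Real.log (1 + η) / Real.log p -
        Real.log (1 - η) / Real.log q) 0 := by
        refine ContinuousAt.sub (ContinuousAt.div_const (ContinuousAt.log (by fun_prop) (by norm_num)) _)
          (ContinuousAt.div_const (ContinuousAt.log (by fun_prop) (by norm_num)) _)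
      have h := this.tendsto
      simpa using h
    have hev := (hc1.eventually (gt_mem_nhds (show (0 : ℝ) < ε / 2 by positivity))).and
      (hc2.eventually (gt_mem_nhds (show (0 : ℝ) < ε / 2 by positivity)))
    rw [Metric.eventually_nhds_iff] at hev
    obtain ⟨r, hr, hrev⟩ := hev
    refine ⟨min (r / 2) (1 / 2), lt_min (by positivity) (by norm_num),
      lt_of_le_of_lt (min_le_right _ _) (by norm_num), ?_⟩
    have h := hrev (y := min (r / 2) (1 / 2)) (by
      rw [Real.dist_eq, sub_zero, abs_of_pos (lt_min (by positivity) (by norm_num))]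
      exact lt_of_le_of_lt (min_le_left _ _) (by linarith))
    exact ⟨h.1.le, h.2.le⟩
  obtain ⟨k₁, n₁, hb₁⟩ := birch_davenport hp hq hpq
  obtain ⟨k₂, n₂, hb₂⟩ := birch_davenport hq hp hpq.symm
  obtain ⟨u₁, hu₁⟩ := equidistribution hq hpq hη0
  obtain ⟨u₂, hu₂⟩ := equidistribution hp hpq.symm hη0
  obtain ⟨u, k, hu, hk, hcase⟩ := exists_good_pair hp hq hpq hℓ hepos
    (k₁ + k₂ + u₁ + u₂ + 1)
  rcases hcase with ⟨h1, h2⟩ | ⟨h1, h2⟩
  · obtain ⟨C, hC, N₀, hN⟩ := one_side hp hq (by omega) hη0 hη1 (u := u) (k := k) (by omega)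
      (fun r => (hu₁ u (by omega) r).2) (fun r => (hu₂ k (by omega) r).1)
      (n₀ := n₂) (fun m hm => le_trans (hb₂ m hm) (cnt_mono hq hp (by
        intro x hx
        have hx' : x.1 < k₂ := hx
        show x.1 < k
        omega) m)) h1 h2
    refine ⟨C, hC, max N₀ 1, fun n hn => ?_⟩
    refine le_trans (hN n (le_trans (le_max_left _ _) hn)) ?_
    have hn1 : (1 : ℝ) ≤ n := by exact_mod_cast le_trans (le_max_right _ _) hn
    refine mul_le_mul_of_nonneg_right ?_ (Nat.cast_nonneg _)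
    refine mul_le_mul_of_nonneg_left ?_ hC.le
    refine Real.rpow_le_rpow_of_exponent_le hn1 ?_
    rw [hee]
    linarith [hη2.1]
  · obtain ⟨C, hC, N₀, hN⟩ := one_side hq hp (by omega) hη0 hη1 (u := u) (k := k) (by omega)
      (fun r => (hu₂ u (by omega) r).2) (fun r => (hu₁ k (by omega) r).1)
      (n₀ := n₁) (fun m hm => le_trans (hb₁ m hm) (cnt_mono hp hq (by
        intro x hx
        have hx' : x.1 < k₁ := hx
        show x.1 < k
        omega) m)) h1 h2
    refine ⟨C, hC, max N₀ 1, fun n hn => ?_⟩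
    rw [cnt_comm hp hq, cnt_comm hp hq]
    refine le_trans (hN n (le_trans (le_max_left _ _) hn)) ?_
    have hn1 : (1 : ℝ) ≤ n := by exact_mod_cast le_trans (le_max_right _ _) hn
    refine mul_le_mul_of_nonneg_right ?_ (Nat.cast_nonneg _)
    refine mul_le_mul_of_nonneg_left ?_ hC.le
    refine Real.rpow_le_rpow_of_exponent_le hn1 ?_
    have hee' : Real.log 2 * e / (Real.log q * Real.log p) = ε / 2 := by
      rw [mul_comm (Real.log q)]; exact hee
    have hcc : Real.log 2 * Real.log ℓ / (Real.log q * Real.log p) =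
        Real.log 2 * Real.log ℓ / (Real.log p * Real.log q) := by
      rw [mul_comm (Real.log q)]
    rw [hee', hcc]
    linarith [hη2.2]

/-! ### Translation to sets of integers -/

lemma val_injective {p q : ℕ} (hp : 2 ≤ p) (hq : 2 ≤ q) (hpq : Nat.Coprime p q) :
    Function.Injective (val p q) := by
  have key : ∀ a b c d : ℕ, p ^ a * q ^ b = p ^ c * q ^ d → a ≤ c → a = c ∧ b = d := by
    intro a b c d h hac
    obtain ⟨e, rfl⟩ := Nat.exists_eq_add_of_le hac
    rw [pow_add, mul_assoc] at h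
    have h1 : q ^ b = p ^ e * q ^ d := Nat.eq_of_mul_eq_mul_left (by positivity) h
    have h2 : e = 0 := by
      by_contra hne
      have h3 : p ∣ q ^ b := by
        rw [h1]; exact Dvd.dvd.mul_right (dvd_pow_self p hne) _
      have h4 : Nat.Coprime p (q ^ b) := Nat.Coprime.pow_right _ hpq
      have h5 : p = 1 := Nat.eq_one_of_dvd_coprimes h4 (dvd_refl p) h3
      omega
    subst h2
    rw [pow_zero, one_mul] at h1
    exact ⟨by omega, Nat.pow_right_injective hq h1⟩
  rintro ⟨a, b⟩ ⟨c, d⟩ h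
  unfold val at h
  simp only at h
  rcases le_total a c with hac | hac
  · obtain ⟨h1, h2⟩ := key a b c d h hac
    rw [h1, h2]
  · obtain ⟨h1, h2⟩ := key c d a b h.symm hac
    rw [h1, h2]

/-- The number of finite subsets of `{p ^ a * q ^ b}` with sum `n` is `cnt`. -/
lemma ncard_eq_cnt {p q : ℕ} (hp : 2 ≤ p) (hq : 2 ≤ q) (hpq : Nat.Coprime p q) (n : ℕ) :
    {T : Finset ℕ | (∀ t ∈ T, ∃ a b : ℕ, t = p ^ a * q ^ b) ∧ ∑ t ∈ T, t = n}.ncard =
      cnt p q Set.univ n := by
  classical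
  have hinj := val_injective hp hq hpq
  unfold cnt
  rw [← Set.ncard_coe_finset]
  symm
  refine Set.ncard_congr (fun B _ => B.image (val p q)) ?_ ?_ ?_
  · intro B hB
    rw [Finset.mem_coe, mem_reps hp hq] at hB
    refine ⟨?_, ?_⟩
    · intro t ht
      rw [mem_image] at ht
      obtain ⟨x, _, rfl⟩ := ht
      exact ⟨x.1, x.2, rfl⟩
    · rw [sum_image (fun x _ y _ h => hinj h)]
      exact hB.2
  · intro B B' _ _ h
    exact Finset.image_injective hinj h
  · intro T hT
    obtain ⟨hT1, hT2⟩ := hT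
    have himg : (T.preimage (val p q) (hinj.injOn)).image (val p q) = T := by
      rw [Finset.image_preimage]
      refine Finset.filter_true_of_mem (fun t ht => ?_)
      obtain ⟨a, b, hab⟩ := hT1 t ht
      exact ⟨(a, b), hab.symm⟩
    refine ⟨T.preimage (val p q) (hinj.injOn), ?_, himg⟩
    rw [Finset.mem_coe, mem_reps hp hq]
    refine ⟨fun _ _ => Set.mem_univ _, ?_⟩
    unfold sm
    rw [← sum_image (g := val p q) (f := fun t => t) (fun x _ y _ h => hinj h), himg]
    exact hT2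

end Pool.Agent.Helper2Dil
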